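import Mathlib

/-! Periodic knot diagrams in an annulus, their Alexander matrix, and staircase polynomials. -/

namespace Pool.Agent.P.MP_8a22ed_gt

open Polynomial LaurentPolynomial

/-- The event in one layer: a minimum, a maximum, or a crossing in which the strand from
`(j, k)` to `(j + 1, k + 1)` lies on top (`over`) or underneath (`under`). -/
inductive Kind
  | cup
  | cap
  | over
  | under
  deriving DecidableEq

/-- An oriented diagram in the universal cover of an annulus, in Morse position and invariant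
under the shift by `m` levels.  On level `j` the track `i` carries a strand running up
(`e j i = 1`), down (`e j i = -1`) or nothing (`e j i = 0`).  Between the levels `j` and `j + 1`
one event of type `kind j` happens on the tracks `k j` and `k j + 1`; a crossing with an empty
track is a sideways slide. -/
structure Diag (m : ℕ) where
  N : ℕ
  e : ℤ → ℤ → ℤ
  kind : ℤ → Kind
  k : ℤ → ℤ
  e_val : ∀ j i, e j i = 1 ∨ e j i = -1 ∨ e j i = 0
  e_out : ∀ j i, i < 0 ∨ (N : ℤ) ≤ i → e j i = 0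
  e_per : ∀ j i, e (j + m) i = e j i
  kind_per : ∀ j, kind (j + m) = kind j
  k_per : ∀ j, k (j + m) = k j
  off : ∀ j i, i ≠ k j → i ≠ k j + 1 → e (j + 1) i = e j i
  cup : ∀ j, kind j = Kind.cup → e j (k j) = 0 ∧ e j (k j + 1) = 0 ∧
    e (j + 1) (k j) ≠ 0 ∧ e (j + 1) (k j + 1) = -e (j + 1) (k j)
  cap : ∀ j, kind j = Kind.cap → e (j + 1) (k j) = 0 ∧ e (j + 1) (k j + 1) = 0 ∧
    e j (k j) ≠ 0 ∧ e j (k j + 1) = -e j (k j)
  crs : ∀ j, kind j = Kind.over ∨ kind j = Kind.under →
    e (j + 1) (k j) = e j (k j + 1) ∧ e (j + 1) (k j + 1) = e j (k j)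

namespace Diag

variable {m : ℕ} (D : Diag m)

/-- The layer which the strand at `s = (level, track)` enters next. -/
def lay (s : ℤ × ℤ) : ℤ := if D.e s.1 s.2 = 1 then s.1 else s.1 - 1

/-- The strand at `s` takes part in the event of the layer it enters. -/
def On (s : ℤ × ℤ) : Prop := s.2 = D.k (D.lay s) ∨ s.2 = D.k (D.lay s) + 1

instance (s : ℤ × ℤ) : Decidable (D.On s) := inferInstanceAs (Decidable (_ ∨ _))

/-- The other track of that event. -/
def oth (s : ℤ × ℤ) : ℤ := 2 * D.k (D.lay s) + 1 - s.2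

/-- The next segment along the orientation. -/
def nxt (s : ℤ × ℤ) : ℤ × ℤ :=
  if D.On s then
    if D.kind (D.lay s) = Kind.cup ∨ D.kind (D.lay s) = Kind.cap then (s.1, D.oth s)
    else (s.1 + D.e s.1 s.2, D.oth s)
  else (s.1 + D.e s.1 s.2, s.2)

/-- The sign of the crossing if the strand at `s` now passes under another strand, else `0`. -/
def sg (s : ℤ × ℤ) : ℤ :=
  if D.On s ∧ ((D.kind (D.lay s) = Kind.over ∧ D.e s.1 s.2 * (D.oth s - s.2) = -1) ∨
      (D.kind (D.lay s) = Kind.under ∧ D.e s.1 s.2 * (D.oth s - s.2) = 1))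
  then (s.2 - D.oth s) * D.e s.1 (D.oth s) else 0

/-- The segments of the closed diagram obtained by gluing level `M` to level `0`. -/
abbrev Seg (M : ℕ) : Type := {s : Fin M × Fin D.N // D.e (s.1 : ℕ) (s.2 : ℕ) ≠ 0}

/-- Level and track of a segment. -/
def pt {M : ℕ} (s : D.Seg M) : ℤ × ℤ := ((s.1.1 : ℕ), (s.1.2 : ℕ))

/-- `1` if the position `x` is the segment `y` of the closed diagram, else `0`. -/
noncomputable def ind (M : ℕ) (x : ℤ × ℤ) (y : D.Seg M) : ℤ[T;T⁻¹] :=
  if (M : ℤ) ∣ x.1 - (D.pt y).1 ∧ x.2 = (D.pt y).2 then 1 else 0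

/-- The Alexander (Fox) matrix of the closed diagram: the row of a segment `s` is the relation
`next = t ^ σ * s + (1 - t ^ σ) * over`. -/
noncomputable def alex (M : ℕ) : Matrix (D.Seg M) (D.Seg M) ℤ[T;T⁻¹] := fun s y =>
  D.ind M (D.nxt (D.pt s)) y - T (D.sg (D.pt s)) * D.ind M (D.pt s) y -
    (1 - T (D.sg (D.pt s))) * D.ind M ((D.pt s).1, D.oth (D.pt s)) y

/-- `Δ` is the Alexander polynomial of the closed diagram: a first minor of the Alexander
matrix, up to a unit `± t ^ n`. -/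
def IsAlex (M : ℕ) (Δ : ℤ[X]) : Prop :=
  ∃ (s r : D.Seg M) (n : ℤ) (ε : ℤ), (ε = 1 ∨ ε = -1) ∧
    (D.alex M).adjugate s r = (ε : ℤ[T;T⁻¹]) * T n * toLaurent Δ

/-- The linking number of the closed diagram with the axis of the annulus. -/
def lk : ℤ := ∑ i ∈ Finset.range D.N, D.e 0 i

end Diag

/-- Staircase form `1 - t ^ a₁ + t ^ a₂ - ⋯ + t ^ a₂ₙ`: constant term `1`, value `1` at `1`,
and all the initial sums of coefficients are `0` or `1`. -/
def Stair (Δ : ℤ[X]) : Prop :=
  Δ.coeff 0 = 1 ∧ Δ.eval 1 = 1 ∧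
    ∀ n, ∑ i ∈ Finset.range n, Δ.coeff i = 0 ∨ ∑ i ∈ Finset.range n, Δ.coeff i = 1

end Pool.Agent.P.MP_8a22ed_gt
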