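import Pool.Agent.P.MP_8a22ed_gt.Defs

/-! Freely periodic diagrams and the Alexander polynomial of the quotient in the lens space. -/

namespace Pool.Agent.P.MP_8a22ed_gt.Diag

open Polynomial LaurentPolynomial

variable {m : ℕ} (D : Diag m)

/-- One period of `E` consists of `q` periods of `D` followed by `s` full twists
`(σ₀ σ₁ ⋯ σ_(N-2)) ^ N` of all the tracks. -/
def IsTwist {M : ℕ} (E : Diag M) (q s : ℕ) : Prop :=
  2 ≤ D.N ∧ E.N = D.N ∧ M = q * m + s * D.N * (D.N - 1) ∧
    (∀ j i : ℤ, 0 ≤ j → j ≤ q * m → E.e j i = D.e j i) ∧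
    (∀ j : ℤ, 0 ≤ j → j < q * m → E.kind j = D.kind j ∧ E.k j = D.k j) ∧
    ∀ a : ℕ, a < s * D.N * (D.N - 1) →
      E.kind (q * m + a) = Kind.over ∧ E.k (q * m + a) = (a % (D.N - 1) : ℕ)

/-- `τ ^ (c * b)` if the position `x` lies `b` periods above the segment `y`, else `0`. -/
noncomputable def indT (c : ℤ) (x : ℤ × ℤ) (y : D.Seg m) : ℤ[T;T⁻¹] :=
  if (m : ℤ) ∣ x.1 - (D.pt y).1 ∧ x.2 = (D.pt y).2 then T (c * ((x.1 - (D.pt y).1) / m)) else 0

/-- The Fox matrix of the closure of one period together with the axis (column of the meridian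
of the axis deleted), with the meridians of the strands sent to `τ ^ q` and the meridian of the
axis sent to `τ ^ c`. -/
noncomputable def alexT (q c : ℤ) : Matrix (D.Seg m) (D.Seg m) ℤ[T;T⁻¹] := fun s y =>
  D.indT c (D.nxt (D.pt s)) y - T (q * D.sg (D.pt s)) * D.indT c (D.pt s) y -
    (1 - T (q * D.sg (D.pt s))) * D.indT c ((D.pt s).1, D.oth (D.pt s)) y

/-- `g` is the Alexander polynomial of the closure of one period in the lens space obtained by
filling the axis (`g / (1 - τ)` is the torsion of its exterior): the factor `τ ^ c - 1` comes from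
the deleted column and the factor `τ ^ lk - 1` from the core of the filling solid torus. -/
def IsAlexQ (q s : ℕ) (g : ℤ[X]) : Prop :=
  ∃ (n : ℤ) (ε : ℤ), (ε = 1 ∨ ε = -1) ∧
    (D.alexT q (-(s * D.lk))).det * (T 1 - 1) =
      (ε : ℤ[T;T⁻¹]) * T n * toLaurent g * (T D.lk - 1) * (T (-(s * D.lk)) - 1)

end Pool.Agent.P.MP_8a22ed_gt.Diag
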