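import Pool.Agent.P.MP_8a22ed_gt.Mat

/-! The Fourier decomposition of the Alexander matrix of the `q`-fold cover. -/

set_option linter.unusedSimpArgs false

namespace Pool.Agent.P.MP_8a22ed_gt.Diag

open Finset Matrix

variable {R : Type*} [CommRing R] {m : ℕ} (D : Diag m)

/-- The column `(u ^ a - 1) / (1 - u)`. -/
def cv (u : Rˣ) (s : D.Seg m) : R :=
  if (D.nxt (D.pt s)).1 / m = 1 then -1 else if (D.nxt (D.pt s)).1 / m = -1 then tp u (-1) else 0

/-- The reduced determinant. -/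
def Dp (t u : Rˣ) (y : D.Seg m) : R := ((D.gm m t u).updateCol y (D.cv u)).det

theorem a_val (s : D.Seg m) : (D.nxt (D.pt s)).1 / m = 1 ∨ (D.nxt (D.pt s)).1 / m = -1 ∨
    (D.nxt (D.pt s)).1 / m = 0 := by
  have h1 := D.nxt_lev (D.pt s)
  have h2 := D.pt_lt s
  have h0 : (0 : ℤ) < m := by omega
  by_cases a : (D.nxt (D.pt s)).1 = m
  · left; rw [a, Int.ediv_self h0.ne']
  · by_cases b : (D.nxt (D.pt s)).1 = -1
    · right; left; rw [b]
      have := Int.add_mul_ediv_right ((m : ℤ) - 1) (-1) h0.ne'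
      rw [Int.ediv_eq_zero_of_lt (a := (m : ℤ) - 1) (by omega) (by omega)] at this
      rw [show (-1 : ℤ) = m - 1 + -1 * m by ring, this]; ring
    · right; right; exact Int.ediv_eq_zero_of_lt (by omega) (by omega)

theorem det_gm (t u : Rˣ) (y : D.Seg m) : (D.gm m t u).det = (1 - u) * D.Dp t u y := by
  have h := det_updateCol_sum (D.gm m t u) y (fun _ => 1)
  have h2 : (fun k => ∑ i, (1 : R) • D.gm m t u k i) = (1 - (u : R)) • D.cv u := by
    funext s
    have := D.gm_one (one_mul m).symm t u s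
    simp only [mulVec, dotProduct, Pi.one_apply, mul_one] at this
    simp only [Pi.smul_apply, smul_eq_mul, one_mul, this, cv]
    rcases D.a_val s with a | a | a
    · simp [a, tp_one]
    · have := tp_add u 1 (-1)
      simp only [add_neg_cancel, tp_zero, tp_one] at this
      simp only [a]; norm_num
      linear_combination -this
    · simp [a]
  rw [h2, det_updateCol_smul, one_smul] at h
  exact h.symm

theorem Dp_one (t : Rˣ) (y r : D.Seg m) :
    tp t (D.vI (D.pt r)) * D.Dp t 1 y = -((D.gm m t 1).adjugate y r * D.gs (tp t)) := by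
  have h0 : 0 < m := Fin.pos y.1.1
  have hM0 : (m : ℤ) ≠ 0 := by exact_mod_cast h0.ne'
  have hz : ∀ y : D.Seg m, (D.pt y).1 / m = 0 := fun y =>
    Int.ediv_eq_zero_of_lt (D.pt_lt y).1 (D.pt_lt y).2
  have h := D.stokes' (one_mul m).symm t (fun x => ((x.1 / m : ℤ) : R)) 1 (fun j i => by
    have := Int.add_mul_ediv_right j 1 hM0
    rw [one_mul] at this
    simp only [this]; push_cast; ring)
  have h2 : ∀ s : D.Seg m, D.Op t (fun x => ((x.1 / m : ℤ) : R)) (D.pt s) = -D.cv 1 s := by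
    intro s
    simp only [Op, hz, cv]
    rcases D.a_val s with a | a | a <;> simp [a]
  simp only [h2, one_mul] at h
  rw [Dp, ← cramer_apply, cramer_eq_adjugate_mulVec, ← h]
  simp only [mulVec, dotProduct, mul_sum, ← sum_neg_distrib]
  refine sum_congr rfl fun s _ => ?_
  have := adj_rel _ _ (D.gm_left (one_mul m).symm t) r (tp_unit _ _) y s
  linear_combination D.cv 1 s * this

theorem gm_map {S : Type*} [CommRing S] (ψ : R →+* S) (t u : Rˣ) (t' u' : Sˣ) (ht : ψ t = t')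
    (hu : ψ u = u') (M : ℕ) : (D.gm M t u).map ψ = D.gm M t' u' := by
  ext s y
  simp only [map_apply, gm, Op, indu, map_sub, map_mul, map_one, tp_map ψ t t' ht,
    apply_ite ψ, tp_map ψ u u' hu, map_zero]

theorem Dp_map {S : Type*} [CommRing S] (ψ : R →+* S) (t u : Rˣ) (t' u' : Sˣ) (ht : ψ t = t')
    (hu : ψ u = u') (y : D.Seg m) : ψ (D.Dp t u y) = D.Dp t' u' y := by
  rw [Dp, Dp, RingHom.map_det, RingHom.mapMatrix_apply, map_updateCol,
    D.gm_map ψ t u t' u' ht hu]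
  congr 2
  funext s
  simp only [Function.comp, cv, apply_ite ψ, tp_map ψ u u' hu, map_neg, map_one, map_zero]

/-- The segments upstairs as pairs (segment downstairs, sheet). -/
def phi (q : ℕ) : D.Seg m × Fin q ≃ D.Seg (q * m) where
  toFun x := ⟨(finProdFinEquiv (x.2, x.1.1.1), x.1.1.2), by
    have := D.e_sh (x.2 : ℕ) (x.1.1.1 : ℕ) (x.1.1.2 : ℕ)
    have h2 := x.1.2
    rw [← this] at h2
    simpa [mul_comm] using h2⟩
  invFun y := (⟨((finProdFinEquiv.symm y.1.1).2, y.1.2), by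
    have := D.e_sh ((finProdFinEquiv.symm y.1.1).1 : ℕ) ((finProdFinEquiv.symm y.1.1).2 : ℕ)
      (y.1.2 : ℕ)
    rw [← this]
    have h2 := y.2
    have h3 := congrArg Fin.val (finProdFinEquiv.apply_symm_apply y.1.1)
    rw [finProdFinEquiv_apply_val] at h3
    rw [← h3] at h2
    simpa [mul_comm] using h2⟩, (finProdFinEquiv.symm y.1.1).1)
  left_inv x := by
    obtain ⟨⟨⟨a, b⟩, h⟩, c⟩ := x
    simp only [Equiv.symm_apply_apply]
  right_inv y := by
    obtain ⟨⟨a, b⟩, h⟩ := y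
    simp only [Prod.mk.eta, Equiv.apply_symm_apply]

theorem pt_phi (q : ℕ) (x : D.Seg m) (b : Fin q) :
    D.pt (D.phi q (x, b)) = ((D.pt x).1 + ((b : ℕ) : ℤ) * m, (D.pt x).2) := by
  simp [pt, phi, mul_comm]

theorem indu_pt {M : ℕ} (u : Rˣ) (x y : D.Seg M) :
    D.indu M u (D.pt x) y = if x = y then 1 else 0 := by
  by_cases h : x = y
  · subst h; simp [indu]
  · rw [if_neg h, indu, if_neg]
    rintro ⟨h1, h2⟩
    have a := D.pt_lt x
    have b := D.pt_lt y
    have c := Int.eq_zero_of_abs_lt_dvd h1 (abs_lt.2 ⟨by omega, by omega⟩)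
    apply h
    simp only [pt, Nat.cast_inj] at h2 c
    exact Subtype.ext (Prod.ext (Fin.ext (by omega)) (Fin.ext h2))

theorem Op_sh (t : Rˣ) (c : R) (F : ℤ × ℤ → R) (a : ℤ)
    (hF : ∀ j i : ℤ, F (j + a * m, i) = c * F (j, i)) (j i : ℤ) :
    D.Op t F (j + a * m, i) = c * D.Op t F (j, i) := by
  simp only [Op, nxt_sh, sg_sh, oth_sh, hF]; ring

/-- The Fourier matrix. -/
def fU (q : ℕ) (ζ : Rˣ) : Matrix (D.Seg m × Fin q) (D.Seg m × Fin q) R := fun x y =>
  if x.1 = y.1 then (ζ : R) ^ ((y.2 : ℕ) * (x.2 : ℕ)) else 0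

theorem tp_pow (ζ : Rˣ) (a b : ℕ) : tp (ζ ^ a) b = (ζ : R) ^ (a * b) := by
  simp [tp, pow_mul]

theorem fU_eq (q : ℕ) (ζ : Rˣ) (x y : D.Seg m × Fin q) :
    D.fU q ζ x y = D.indu m (ζ ^ (y.2 : ℕ)) (D.pt (D.phi q x)) y.1 := by
  obtain ⟨x, b⟩ := x
  rw [pt_phi, D.indu_sh (Fin.pos x.1.1), indu_pt, tp_pow, fU]
  simp

theorem four_mul (q : ℕ) (t ζ : Rˣ) (hζ : ζ ^ q = 1) :
    (D.gm (q * m) t 1).submatrix (D.phi q) (D.phi q) * D.fU q ζ =
      D.fU q ζ * blockDiagonal (fun a : Fin q => D.gm m t (ζ ^ (a : ℕ))) := by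
  ext ⟨x, b⟩ ⟨y, a⟩
  have h0 : 0 < m := Fin.pos x.1.1
  have h1 := D.gm_mulVec (M := q * m) rfl t 1 (fun p => D.indu m (ζ ^ (a : ℕ)) p y)
    (fun c j i => by
      have e1 : c * ((q * m : ℕ) : ℤ) = (c * q) * m := by push_cast; ring
      have e2 : tp (ζ ^ (a : ℕ)) (c * q) = 1 := by
        rw [tp, mul_comm, _root_.zpow_mul, zpow_natCast, ← pow_mul, mul_comm, pow_mul, hζ]; simp
      simp only [e1]
      rw [D.indu_sh h0, e2, tp_one_left]) (D.phi q (x, b))
  have h2 : ((D.gm (q * m) t 1).submatrix (D.phi q) (D.phi q) * D.fU q ζ) (x, b) (y, a) =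
      (D.gm (q * m) t 1 *ᵥ fun z => D.indu m (ζ ^ (a : ℕ)) (D.pt z) y) (D.phi q (x, b)) := by
    simp only [mul_apply, submatrix_apply, mulVec, dotProduct, fU_eq]
    exact Equiv.sum_comp (D.phi q) (fun z => D.gm (q * m) t 1 (D.phi q (x, b)) z *
      D.indu m (ζ ^ (a : ℕ)) (D.pt z) y)
  rw [h2, h1, pt_phi, D.Op_sh t _ _ _ (D.indu_sh h0 _ y _), tp_pow, mul_apply,
    sum_eq_single (x, a)]
  · simp [fU, gm]
  · rintro ⟨z, c⟩ _ hne
    by_cases hz : x = z
    · subst hz
      have : c ≠ a := fun h => hne (by rw [h])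
      simp [blockDiagonal_apply, this]
    · simp [fU, hz]
  · simp

theorem fU_det [IsDomain R] (q : ℕ) (ζ : Rˣ) (hζ : IsPrimitiveRoot (ζ : R) q) :
    (D.fU q ζ).det ≠ 0 := by
  intro h
  obtain ⟨v, hv, h2⟩ := exists_mulVec_eq_zero_iff.2 h
  apply hv
  funext ⟨x, a⟩
  have := eq_zero_of_forall_pow_sum_mul_pow_eq_zero (f := fun c : Fin q => (ζ : R) ^ (c : ℕ))
    (v := fun c => v (x, c)) (fun c d hcd => Fin.ext (hζ.pow_inj c.2 d.2 hcd)) (fun b => by
      have := congrFun h2 (x, b)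
      simp only [mulVec, dotProduct, fU, Fintype.sum_prod_type, ite_mul, zero_mul] at this
      rw [sum_comm] at this
      simpa [← pow_mul, mul_comm] using this)
  exact congrFun this a

theorem fourier [IsDomain R] (n : ℕ) (t ζ : Rˣ) (hζ : IsPrimitiveRoot (ζ : R) (n + 1))
    (hq : ((n + 1 : ℕ) : R) ≠ 0) (y : D.Seg m) :
    (D.gm ((n + 1) * m) t 1).adjugate (D.phi (n + 1) (y, 0)) (D.phi (n + 1) (y, 0)) =
      (D.gm m t 1).adjugate y y * ∏ a : Fin n, D.Dp t (ζ ^ ((a : ℕ) + 1)) y := by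
  set A := (D.gm ((n + 1) * m) t 1).submatrix (D.phi (n + 1)) (D.phi (n + 1)) with hA
  set U := D.fU (n + 1) ζ with hU
  set κ := (D.gm ((n + 1) * m) t 1).adjugate (D.phi (n + 1) (y, 0)) (D.phi (n + 1) (y, 0))
  have hz : ζ ^ (n + 1) = 1 := Units.ext (by simpa using hζ.pow_eq_one)
  have h1 := D.four_mul (n + 1) t ζ hz
  rw [← hA, ← hU] at h1
  have h2 : (blockDiagonal (fun a : Fin (n + 1) => D.gm m t (ζ ^ (a : ℕ)))).updateCol (y, 0)
      (Pi.single (y, 0) 1) = blockDiagonal (fun a : Fin (n + 1) =>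
        if a = 0 then (D.gm m t 1).updateCol y (Pi.single y 1) else D.gm m t (ζ ^ (a : ℕ))) := by
    ext ⟨x, b⟩ ⟨z, c⟩
    by_cases hc : c = 0
    · subst hc
      by_cases hb : b = 0
      · subst hb
        by_cases hzy : z = y
        · subst hzy; simp [Pi.single_apply]
        · simp [updateCol_apply, hzy]
      · by_cases hzy : z = y
        · subst hzy; simp [Pi.single_apply, blockDiagonal_apply, hb]
        · simp [updateCol_apply, hzy, blockDiagonal_apply, hb]
    · by_cases hb : b = c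
      · subst hb; simp [updateCol_apply, hc]
      · simp [updateCol_apply, hc, blockDiagonal_apply, hb]
  have h3 := congrArg det (mul_updateCol U
    (blockDiagonal (fun a : Fin (n + 1) => D.gm m t (ζ ^ (a : ℕ)))) (y, 0) (Pi.single (y, 0) 1))
  rw [det_mul, h2, det_blockDiagonal, Fin.prod_univ_succ, ← h1, ← cramer_apply (A * U),
    cramer_eq_adjugate_mulVec, adjugate_mul_distrib, ← mulVec_mulVec] at h3
  have h4 : A.adjugate *ᵥ (U *ᵥ Pi.single (y, 0) 1) = (((n + 1 : ℕ) : R) * κ) • 1 := by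
    funext x
    rw [hA, adjugate_submatrix_equiv_self, mulVec_single_one]
    simp only [mulVec, dotProduct, submatrix_apply, col_apply, hU, fU, Fintype.sum_prod_type]
    rw [sum_eq_single y]
    · have : ∀ b : Fin (n + 1), (D.gm ((n + 1) * m) t 1).adjugate (D.phi (n + 1) x)
          (D.phi (n + 1) (y, b)) = κ := by
        intro b
        rw [D.adj_all rfl t _ _ (D.phi (n + 1) (y, 0)) (D.phi (n + 1) (y, 0)), pt_phi, pt_phi,
          vI_sh, vI_sh]
        simp [κ]
      simp [this]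
    · intro z _ hzy; simp [hzy]
    · simp
  have h5 : U *ᵥ (fun x => if x.2 = 0 then 1 else 0) = 1 := by
    funext x
    simp [mulVec, dotProduct, hU, fU, Fintype.sum_prod_type]
  have h6 : (U.adjugate *ᵥ 1) (y, 0) = U.det := by
    rw [← h5, mulVec_mulVec, adjugate_mul]; simp [smul_mulVec]
  rw [h4, mulVec_smul, Pi.smul_apply, h6] at h3
  simp only [if_true, Fin.succ_ne_zero, if_false, Fin.val_succ, D.det_gm t _ y,
    prod_mul_distrib, smul_eq_mul] at h3
  have h7 : ∏ a : Fin n, (1 - ((ζ ^ ((a : ℕ) + 1) : Rˣ) : R)) = ((n + 1 : ℕ) : R) := by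
    have := hζ.prod_one_sub_pow_eq_order
    rw [← Fin.prod_univ_eq_prod_range (fun k => 1 - (ζ : R) ^ (k + 1))] at this
    simpa using this
  rw [h7, ← cramer_apply, cramer_eq_adjugate_mulVec, mulVec_single_one, col_apply] at h3
  apply mul_left_cancel₀ (mul_ne_zero (D.fU_det (n + 1) ζ hζ) hq)
  rw [← hU]
  linear_combination -h3

end Pool.Agent.P.MP_8a22ed_gt.Diag
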