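import Pool.Agent.P.MP_8a22ed_gt.Twist
import Pool.Agent.P.MP_8a22ed_gt.Fourier

/-! Elimination of the twist region from the Alexander matrix: set-up. -/

set_option linter.unusedSimpArgs false

namespace Pool.Agent.P.MP_8a22ed_gt.Diag

open Finset Matrix

variable {R : Type*} [CommRing R] {m M : ℕ}

theorem pt_inj (D : Diag m) {s y : D.Seg M} (h : D.pt s = D.pt y) : s = y := by
  simp only [pt, Prod.mk.injEq, Nat.cast_inj] at h
  exact Subtype.ext (Prod.ext (Fin.ext h.1) (Fin.ext h.2))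

theorem exists_seg (D : Diag m) (x : ℤ × ℤ) (h0 : 0 ≤ x.1) (h1 : x.1 < M)
    (he : D.e x.1 x.2 ≠ 0) : ∃ s : D.Seg M, D.pt s = x := by
  obtain ⟨j, i⟩ := x
  have b1 : 0 ≤ i ∧ i < D.N := by
    by_contra hc
    exact he (D.e_out j i (by omega))
  simp only at h0 h1
  refine ⟨⟨(⟨j.toNat, by omega⟩, ⟨i.toNat, by omega⟩), ?_⟩, ?_⟩
  · simpa [Int.toNat_of_nonneg h0, Int.toNat_of_nonneg b1.1] using he
  · simp [pt, Int.toNat_of_nonneg h0, Int.toNat_of_nonneg b1.1]

theorem Op_congr' (D : Diag m) (t : Rˣ) (F G : ℤ × ℤ → R) (s : ℤ × ℤ) (hs : D.e s.1 s.2 ≠ 0)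
    (h : ∀ x, D.e x.1 x.2 ≠ 0 → D.lay s ≤ x.1 → x.1 ≤ D.lay s + 1 → F x = G x) :
    D.Op t F s = D.Op t G s := by
  have hv := D.e_val s.1 s.2
  have h1 : D.lay s ≤ s.1 ∧ s.1 ≤ D.lay s + 1 := by unfold lay; split_ifs <;> omega
  have h2 : D.lay s ≤ (D.nxt s).1 ∧ (D.nxt s).1 ≤ D.lay s + 1 := by
    unfold nxt lay; split_ifs <;> simp only <;> omega
  unfold Op
  rw [h _ (D.e_nxt s hs) h2.1 h2.2, h s hs h1.1 h1.2]
  by_cases ho : D.e s.1 (D.oth s) = 0
  · simp [D.sg_zero s ho]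
  · rw [h (s.1, D.oth s) ho h1.1 h1.2]

/-- The periodic function with prescribed values on the segments. -/
def ext (D : Diag m) (M : ℕ) (F : D.Seg M → R) (x : ℤ × ℤ) : R := ∑ y, D.indu M 1 x y * F y

theorem ext_pt (D : Diag m) (F : D.Seg M → R) (s : D.Seg M) : D.ext M F (D.pt s) = F s := by
  simp [ext, indu_pt]

theorem ext_sh (D : Diag m) (h0 : 0 < M) (F : D.Seg M → R) (a j i : ℤ) :
    D.ext M F (j + a * M, i) = D.ext M F (j, i) := by
  simp [ext, D.indu_sh h0]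

theorem gm_ext (D : Diag m) (t : Rˣ) (F : D.Seg M → R) (s : D.Seg M) :
    (D.gm M t 1 *ᵥ F) s = D.Op t (D.ext M F) (D.pt s) := by
  simp only [mulVec, dotProduct, gm, Op, ext, mul_sum, ← sum_sub_distrib]
  exact sum_congr rfl fun y _ => by ring

/-- Level sums. -/
def Lf (D : Diag m) (τ : ℤ → R) (F : ℤ × ℤ → R) (j : ℤ) : R := ∑ i ∈ range D.N, D.lv τ F j i

theorem UW (D : Diag m) (τ : ℤ → R) (F : ℤ × ℤ → R) (j : ℤ) :
    ∑ i ∈ range D.N, (if D.e j i = 1 then D.row τ F (j, i) else 0) +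
      ∑ i ∈ range D.N, (if D.e (j + 1) i = -1 then D.row τ F (j + 1, i) else 0) =
      D.Lf τ F (j + 1) - D.Lf τ F j := by
  have := D.sum_df τ F j
  simp only [df, sum_sub_distrib, sum_add_distrib] at this
  exact sub_eq_zero.1 this

theorem Lf_sol (D : Diag m) {t : Rˣ} {G : ℤ × ℤ → R} {j : ℤ} (h : D.Sol t G j) :
    D.Lf (tp t) G (j + 1) = D.Lf (tp t) G j := by
  have := D.UW (tp t) G j
  rw [sum_eq_zero, sum_eq_zero, add_zero] at this
  · exact sub_eq_zero.1 this.symm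
  · intro i _
    split_ifs with u
    · rw [row_eq, h.2 _ u, mul_zero]
    · rfl
  · intro i _
    split_ifs with u
    · rw [row_eq, h.1 _ u, mul_zero]
    · rfl

/-- Exchange of the downward strands on the levels `0` and `n`. -/
def rp (E : Diag M) (n : ℕ) (x : ℤ × ℤ) : ℤ × ℤ :=
  if x.1 = 0 ∧ E.e 0 x.2 = -1 then (n, x.2) else if x.1 = n ∧ E.e 0 x.2 = -1 then (0, x.2) else x

theorem stokes2 (E : Diag M) (n : ℕ) (hn : 0 < n) (he : ∀ i, E.e n i = E.e 0 i) (τ : ℤ → R)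
    (F : ℤ × ℤ → R) : ∑ j ∈ range n, ∑ i ∈ range E.N,
      (if E.e j i ≠ 0 then E.row τ F (E.rp n (j, i)) else 0) = E.Lf τ F n - E.Lf τ F 0 := by
  obtain ⟨n, rfl⟩ : ∃ a, n = a + 1 := ⟨n - 1, by omega⟩
  have h1 := sum_range_sub (fun j : ℕ => E.Lf τ F j) (n + 1)
  simp only [Nat.cast_zero] at h1
  rw [← h1]
  have h2 : ∀ j : ℕ, E.Lf τ F ((j + 1 : ℕ) : ℤ) - E.Lf τ F j =
      ∑ i ∈ range E.N, (if E.e j i = 1 then E.row τ F (j, i) else 0) +
      ∑ i ∈ range E.N, (if E.e ((j + 1 : ℕ) : ℤ) i = -1 then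
        E.row τ F (((j + 1 : ℕ) : ℤ), i) else 0) := fun j => by
    push_cast; exact (E.UW τ F j).symm
  simp only [h2]
  rw [sum_add_distrib, sum_range_succ' (fun j : ℕ => ∑ i ∈ range E.N,
    (if E.e j i = 1 then E.row τ F (j, i) else 0)), sum_range_succ (fun j : ℕ =>
      ∑ i ∈ range E.N, (if E.e ((j + 1 : ℕ) : ℤ) i = -1 then
        E.row τ F (((j + 1 : ℕ) : ℤ), i) else 0)), sum_range_succ', add_add_add_comm,
    ← sum_add_distrib, ← sum_add_distrib]
  congr 1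
  · refine sum_congr rfl fun j hj => ?_
    have := mem_range.1 hj
    rw [← sum_add_distrib]
    refine sum_congr rfl fun i _ => ?_
    have hr : E.rp (n + 1) (((j + 1 : ℕ) : ℤ), i) = (((j + 1 : ℕ) : ℤ), (i : ℤ)) := by
      rw [rp, if_neg (by simp only; omega), if_neg (by simp only; omega)]
    rw [hr]
    rcases E.e_val ((j + 1 : ℕ) : ℤ) i with u | u | u <;> rw [u] <;> simp
  · refine sum_congr rfl fun i _ => ?_
    rw [he]
    have : (n : ℤ) + 1 ≠ 0 := by omega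
    rcases E.e_val 0 i with u | u | u <;> simp [u, rp, this]

/-- `E` is `q` periods of `D` followed by a braid that acts on solutions by `t ^ c` and a shift. -/
structure Setup (D : Diag m) (E : Diag M) (q n : ℕ) (c : ℤ) : Prop where
  hn : n = q * m
  pos : 0 < n
  lt : n < M
  hN : E.N = D.N
  he : ∀ j i : ℤ, 0 ≤ j → j ≤ n → E.e j i = D.e j i
  hk : ∀ j : ℤ, 0 ≤ j → j < n → E.kind j = D.kind j ∧ E.k j = D.k j
  ov : ∀ j : ℤ, n ≤ j → j < M → E.kind j = Kind.over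
  tw : ∀ (R : Type) [CommRing R] (t : Rˣ) (G : ℤ × ℤ → R),
    (∀ j : ℤ, n ≤ j → j < M → E.Sol t G j) →
      ∃ γ, ∀ i, E.e n i ≠ 0 → G (n, i) = tp t c * G (M, i) + γ

namespace Setup

variable {D : Diag m} {E : Diag M} {q n : ℕ} {c : ℤ} (h : Setup D E q n c)
include h

theorem e0 (i : ℤ) : E.e n i = E.e 0 i := by
  rw [h.he n i (by omega) le_rfl, h.he 0 i le_rfl (by omega), h.hn]
  simpa using D.e_sh q 0 i

theorem rp_rp (x : ℤ × ℤ) : E.rp n (E.rp n x) = x := by
  have := h.pos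
  obtain ⟨j, i⟩ := x
  by_cases a : E.e 0 i = -1
  · by_cases b : j = 0
    · simp [rp, a, b, this.ne']
    · by_cases d : j = n
      · simp [rp, a, d, this.ne']
      · simp [rp, a, b, d]
  · simp [rp, a]

theorem rp_ok (s : E.Seg M) : ∃ y : E.Seg M, E.pt y = E.rp n (E.pt s) := by
  have a := E.pt_lt s
  have b := E.pt_e s
  have := h.lt
  refine E.exists_seg _ ?_ ?_ ?_ <;> unfold rp <;> split_ifs with u v <;>
    first | omega | (simp only [h.e0]; omega)

/-- The exchange as a permutation of the segments. -/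
noncomputable def rho : Equiv.Perm (E.Seg M) :=
  Function.Involutive.toPerm (fun s => (h.rp_ok s).choose) fun s => E.pt_inj (by
    rw [(h.rp_ok _).choose_spec, (h.rp_ok s).choose_spec, h.rp_rp])

theorem pt_rho (s : E.Seg M) : E.pt (h.rho s) = E.rp n (E.pt s) := (h.rp_ok s).choose_spec

theorem io_ok (z : D.Seg n) : ∃ y : {s : E.Seg M // (E.pt s).1 < n}, E.pt y.1 = D.pt z := by
  have a := D.pt_lt z
  have := h.lt
  obtain ⟨y, hy⟩ := E.exists_seg (M := M) (D.pt z) a.1 (by omega)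
    (by rw [h.he _ _ a.1 a.2.le]; exact D.pt_e z)
  exact ⟨⟨y, by rw [hy]; exact a.2⟩, hy⟩

/-- The segments below the twist region. -/
noncomputable def io : D.Seg n ≃ {s : E.Seg M // (E.pt s).1 < n} :=
  Equiv.ofBijective (fun z => (h.io_ok z).choose) ⟨fun z y hzy => D.pt_inj (by
    rw [← (h.io_ok z).choose_spec, ← (h.io_ok y).choose_spec]; exact congrArg (E.pt ·.1) hzy),
    fun s => by
      have a := E.pt_lt s.1
      obtain ⟨z, hz⟩ := D.exists_seg (M := n) (E.pt s.1) a.1 s.2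
        (by rw [← h.he _ _ a.1 s.2.le]; exact E.pt_e s.1)
      exact ⟨z, Subtype.ext (E.pt_inj (by rw [(h.io_ok z).choose_spec, hz]))⟩⟩

theorem pt_io (z : D.Seg n) : E.pt (h.io z).1 = D.pt z := (h.io_ok z).choose_spec

theorem sol_of {t : Rˣ} {F : E.Seg M → R}
    (hF : ∀ s, ¬ (E.pt s).1 < n → (E.gm M t 1 *ᵥ F) (h.rho s) = 0) (j : ℤ) (h1 : n ≤ j)
    (h2 : j < M) : E.Sol t (E.ext M F) j := by
  have hp := h.pos
  have hl := h.lt
  refine ⟨fun i u => ?_, fun i u => ?_⟩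
  · obtain ⟨s, hs⟩ := E.exists_seg (M := M) (j, i) (by omega) h2 (by simp [u])
    have := hF s (by rw [hs]; omega)
    rw [gm_ext, pt_rho, hs, rp, if_neg (by omega), if_neg] at this
    · exact this
    · rintro ⟨a, b⟩
      simp only at a b
      rw [a, h.e0] at u; omega
  · by_cases h3 : j + 1 < M
    · obtain ⟨s, hs⟩ := E.exists_seg (M := M) (j + 1, i) (by omega) h3 (by simp [u])
      have := hF s (by rw [hs]; omega)
      rwa [gm_ext, pt_rho, hs, rp, if_neg (by omega), if_neg (by omega)] at this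
    · have h4 : j + 1 = 0 + 1 * (M : ℤ) := by omega
      rw [h4, E.e_sh] at u
      obtain ⟨s, hs⟩ := E.exists_seg (M := M) (n, i) (by omega) (by omega) (by simp [h.e0, u])
      have := hF s (by rw [hs]; omega)
      rw [gm_ext, pt_rho, hs, rp, if_neg (by omega), if_pos ⟨rfl, u⟩] at this
      rw [h4, E.Op_sh t 1 _ 1 (fun j i => by rw [E.ext_sh (by omega), one_mul]), this, mul_zero]

/-- The matrix that fixes the lower segments and evaluates the relations of the twist region. -/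
noncomputable def Q (t : Rˣ) : Matrix (E.Seg M) (E.Seg M) R := fun s y =>
  if (E.pt s).1 < n then (if s = y then 1 else 0) else E.gm M t 1 (h.rho s) y

theorem Q_low (t : Rˣ) (F : E.Seg M → R) (s : E.Seg M) (hs : (E.pt s).1 < n) :
    (h.Q t *ᵥ F) s = F s := by
  simp [mulVec, dotProduct, Q, hs]

theorem Q_high (t : Rˣ) (F : E.Seg M → R) (s : E.Seg M) (hs : ¬ (E.pt s).1 < n) :
    (h.Q t *ᵥ F) s = (E.gm M t 1 *ᵥ F) (h.rho s) := by
  simp [mulVec, dotProduct, Q, hs]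

theorem Q_inj (t : Rˣ) (F : E.Seg M → R) (hF : h.Q t *ᵥ F = 0) : F = 0 := by
  have hp := h.pos
  have hl := h.lt
  have hs := h.sol_of (t := t) (F := F) fun s hs => by rw [← h.Q_high t F s hs, hF]; rfl
  have hlow : ∀ s, (E.pt s).1 < n → F s = 0 := fun s hs => by rw [← h.Q_low t F s hs, hF]; rfl
  have key : ∀ d : ℕ, (n : ℤ) ≤ M - d → ∀ i, E.e (M - d) i ≠ 0 → E.ext M F (M - d, i) = 0 := by
    intro d
    induction d with
    | zero =>
      intro _ i u
      have h4 : (M : ℤ) - (0 : ℕ) = 0 + 1 * (M : ℤ) := by omega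
      rw [h4, E.e_sh] at u
      obtain ⟨s, hs⟩ := E.exists_seg (M := M) (0, i) le_rfl (by omega) u
      rw [h4, E.ext_sh (by omega), ← hs, ext_pt]
      exact hlow s (by rw [hs]; omega)
    | succ d ih =>
      intro hd
      have h4 : (M : ℤ) - d = M - (d + 1 : ℕ) + 1 := by push_cast; ring
      rw [h4] at ih
      exact E.down_zero (hs _ hd (by omega)) (h.ov _ hd (by omega)) (ih (by omega))
  funext s
  by_cases hs : (E.pt s).1 < n
  · exact hlow s hs
  · have a := E.pt_lt s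
    have b : (E.pt s).1 = M - ((M - (E.pt s).1).toNat : ℕ) := by omega
    have := key (M - (E.pt s).1).toNat (by omega) (E.pt s).2 (by rw [← b]; exact E.pt_e s)
    rwa [← b, ext_pt] at this

theorem Q_unit (t : Rˣ) : IsUnit (h.Q t).det := by
  by_contra hc
  obtain ⟨I, hI, hm⟩ := exists_max_ideal_of_mem_nonunits hc
  have := hI.isPrime
  let ψ := Ideal.Quotient.mk I
  have h1 : (h.Q t).map ψ = h.Q (Units.map (ψ : R →* R ⧸ I) t) := by
    ext s y
    rw [map_apply, Q, Q, ← E.gm_map ψ t 1 (Units.map (ψ : R →* R ⧸ I) t) 1 rfl (by simp)]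
    split_ifs <;> simp
  have h2 : (h.Q (Units.map (ψ : R →* R ⧸ I) t)).det = 0 := by
    rw [← h1, ← RingHom.mapMatrix_apply, ← RingHom.map_det]
    exact Ideal.Quotient.eq_zero_iff_mem.2 hm
  obtain ⟨v, hv, h3⟩ := exists_mulVec_eq_zero_iff.2 h2
  exact hv (h.Q_inj _ v h3)

end Setup

end Pool.Agent.P.MP_8a22ed_gt.Diag
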