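import Pool.Agent.P.MP_8a22ed_gt.Elim

/-! Elimination of the twist region from the Alexander matrix: the determinant formula. -/

set_option linter.unusedSimpArgs false

namespace Pool.Agent.P.MP_8a22ed_gt.Diag.Setup

open Finset Matrix

variable {R : Type} [CommRing R] {m M : ℕ} {D : Diag m} {E : Diag M} {q n : ℕ} {c : ℤ}
  (h : Setup D E q n c)
include h

theorem rp_facts (z : D.Seg n) : E.e (E.rp n (D.pt z)).1 (E.rp n (D.pt z)).2 ≠ 0 ∧
    0 ≤ E.lay (E.rp n (D.pt z)) ∧ E.lay (E.rp n (D.pt z)) < n ∧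
    0 ≤ (E.rp n (D.pt z)).1 ∧ (E.rp n (D.pt z)).1 ≤ n := by
  have a := D.pt_lt z
  have b := D.pt_e z
  have hp := h.pos
  rw [← h.he _ _ a.1 a.2.le] at b
  have hv := E.e_val (D.pt z).1 (D.pt z).2
  unfold rp
  split_ifs with u v
  · simp only [lay, h.e0, u.2]; norm_num; omega
  · omega
  · refine ⟨b, ?_, ?_, a.1, a.2.le⟩ <;> unfold lay <;> split_ifs with w <;> try omega
    by_contra hc
    have : (D.pt z).1 = 0 := by omega
    rw [this] at hv b w
    omega

theorem Op_eq (t : Rˣ) (F : ℤ × ℤ → R) (x : ℤ × ℤ) (h0 : 0 ≤ E.lay x) (h1 : E.lay x < n)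
    (h2 : 0 ≤ x.1) (h3 : x.1 ≤ n) : E.Op t F x = D.Op t F x := by
  have a : ∀ i, E.e x.1 i = D.e x.1 i := fun i => h.he _ _ h2 h3
  have b : E.lay x = D.lay x := by simp only [lay, a]
  obtain ⟨c1, c2⟩ := h.hk _ h0 h1
  rw [b] at c1 c2
  simp only [Op, nxt, sg, oth, On, a, b, c1, c2]

theorem sum_io (t : Rˣ) (F : ℤ × ℤ → R) :
    ∑ z : D.Seg n, tp t (E.vI (E.rp n (D.pt z))) * E.Op t F (E.rp n (D.pt z)) =
      E.Lf (tp t) F n - E.Lf (tp t) F 0 := by
  simp only [← row_eq]
  rw [D.sum_seg n (fun x => E.row (tp t) F (E.rp n x)), ← E.stokes2 n h.pos h.e0, h.hN]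
  refine sum_congr rfl fun j hj => sum_congr rfl fun i _ => ?_
  have := mem_range.1 hj
  rw [h.he _ _ (by omega) (by omega)]

/-- The reduced matrix. -/
noncomputable def C (t : Rˣ) : Matrix (E.Seg M) (E.Seg M) R :=
  (E.gm M t 1).submatrix h.rho id * (h.Q t)⁻¹

theorem C_high (t : Rˣ) (s y : E.Seg M) (hs : ¬ (E.pt s).1 < n) :
    h.C t s y = if s = y then 1 else 0 := by
  have := congrFun (congrFun (mul_nonsing_inv _ (h.Q_unit t)) s) y
  rw [one_apply] at this
  rw [← this, C, mul_apply, mul_apply]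
  simp [Q, hs]

theorem C_apply (t : Rˣ) (s y : E.Seg M) :
    h.C t s y = E.Op t (E.ext M fun x => (h.Q t)⁻¹ x y) (E.rp n (E.pt s)) := by
  rw [← h.pt_rho, ← gm_ext]
  simp [C, mul_apply, mulVec, dotProduct]

theorem inv_low (t : Rˣ) (s y : E.Seg M) (hs : (E.pt s).1 < n) :
    (h.Q t)⁻¹ s y = if s = y then 1 else 0 := by
  have := congrFun (congrFun (mul_nonsing_inv _ (h.Q_unit t)) s) y
  rw [one_apply] at this
  rw [← this, mul_apply]
  simp [Q, hs]

theorem sol_inv (t : Rˣ) (y : E.Seg M) (hy : (E.pt y).1 < n) (j : ℤ) (h1 : n ≤ j) (h2 : j < M) :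
    E.Sol t (E.ext M fun x => (h.Q t)⁻¹ x y) j := by
  refine h.sol_of (fun s hs => ?_) j h1 h2
  rw [gm_ext, h.pt_rho, ← h.C_apply, h.C_high t s y hs, if_neg]
  rintro rfl; exact hs hy

/-- The lower block of the reduced matrix. -/
noncomputable def B (t : Rˣ) : Matrix (D.Seg n) (D.Seg n) R := fun z y =>
  h.C t (h.io z).1 (h.io y).1

theorem adj_C (t : Rˣ) (y r : D.Seg n) :
    (h.C t).adjugate (h.io y).1 (h.io r).1 = (h.B t).adjugate y r := by
  have e1 : ∀ {ι : Type} [Fintype ι] [DecidableEq ι] (A : Matrix ι ι R) (a b : ι),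
      A.adjugate a b = (A.updateCol a (Pi.single b 1)).det := fun A a b => by
    rw [← cramer_apply, cramer_eq_adjugate_mulVec, mulVec_single_one, col_apply]
  rw [e1, e1, twoBlockTriangular_det _ (fun s => (E.pt s).1 < n)]
  · have a : toSquareBlockProp ((h.C t).updateCol (h.io y).1 (Pi.single (h.io r).1 1))
        (fun s => ¬ (E.pt s).1 < n) = 1 := by
      ext ⟨s, hs⟩ ⟨x, hx⟩
      have : x ≠ (h.io y).1 := by rintro rfl; exact hx (h.io y).2
      simp [toSquareBlockProp_def, updateCol_apply, this, h.C_high t s x hs, one_apply]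
    rw [a, det_one, mul_one, ← det_submatrix_equiv_self h.io]
    congr 1
    ext z x
    simp [toSquareBlockProp_def, updateCol_apply, B, Pi.single_apply, Subtype.val_inj]
  · intro s hs x hx
    have a : s ≠ x := by rintro rfl; exact hs hx
    have b : s ≠ (h.io r).1 := by rintro rfl; exact hs (h.io r).2
    simp [updateCol_apply, h.C_high t s x hs, a, b]

theorem adj_B (t : Rˣ) (y r : D.Seg n) :
    Associated ((h.B t).adjugate y r) ((E.gm M t 1).adjugate (h.io y).1 (h.rho (h.io r).1)) := by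
  have e1 : ∀ (A : Matrix (E.Seg M) (E.Seg M) R) (a b : E.Seg M),
      A.adjugate a b = (A.updateCol a (Pi.single b 1)).det := fun A a b => by
    rw [← cramer_apply, cramer_eq_adjugate_mulVec, mulVec_single_one, col_apply]
  have h1 : (E.gm M t 1).submatrix h.rho id = h.C t * h.Q t := by
    rw [C, nonsing_inv_mul_cancel_right _ _ (h.Q_unit t)]
  have h2 : h.Q t * ((E.gm M t 1).submatrix h.rho id).adjugate =
      (h.Q t).det • (h.C t).adjugate := by
    rw [h1, adjugate_mul_distrib, ← mul_assoc, mul_adjugate, smul_mul, one_mul]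
  have h3 := congrFun (congrFun h2 (h.io y).1) (h.io r).1
  rw [mul_apply] at h3
  simp only [Q, (h.io y).2, if_true, ite_mul, one_mul, zero_mul, sum_ite_eq, mem_univ,
    Matrix.smul_apply, smul_eq_mul] at h3
  have h4 : ((E.gm M t 1).submatrix h.rho id).updateCol (h.io y).1 (Pi.single (h.io r).1 1) =
      ((E.gm M t 1).updateCol (h.io y).1 (Pi.single (h.rho (h.io r).1) 1)).submatrix h.rho id := by
    ext a b
    simp [updateCol_apply, Pi.single_apply]
  rw [e1, h4, det_permute, ← e1, h.adj_C] at h3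
  have u1 : IsUnit (((Equiv.Perm.sign h.rho : ℤˣ) : ℤ) : R) :=
    (Units.isUnit _).map (Int.castRingHom R)
  exact (associated_unit_mul_right _ _ (h.Q_unit t)).trans
    ((Associated.of_eq h3.symm).trans (associated_unit_mul_left _ _ u1))

theorem B_left (t : Rˣ) : (fun z => tp t (E.vI (E.rp n (D.pt z)))) ᵥ* h.B t = 0 := by
  funext y
  have hl := h.lt
  have h1 := h.sum_io t (E.ext M fun x => (h.Q t)⁻¹ x (h.io y).1)
  have h2 : ∀ d : ℕ, (n : ℤ) + d ≤ M →
      E.Lf (tp t) (E.ext M fun x => (h.Q t)⁻¹ x (h.io y).1) (n + d) =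
      E.Lf (tp t) (E.ext M fun x => (h.Q t)⁻¹ x (h.io y).1) n := by
    intro d
    induction d with
    | zero => simp
    | succ d ih =>
      intro hd
      push_cast at hd ⊢
      rw [← add_assoc, E.Lf_sol (h.sol_inv t _ (h.io y).2 _ (by omega) (by omega)), ih (by omega)]
  have h3 := h2 (M - n) (by omega)
  rw [show (n : ℤ) + (M - n : ℕ) = 0 + 1 * M by omega] at h3
  simp only [Lf, lv, e_sh, I_sh, E.ext_sh (by omega : 0 < M)] at h3
  simp only [Lf, lv] at h1
  rw [h3, sub_self] at h1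
  simp only [vecMul, dotProduct, B, h.C_apply, h.pt_io, Pi.zero_apply]
  exact h1

theorem B_eq (t : Rˣ) (y : D.Seg n) : ∃ γ : R, ∀ z, h.B t z y =
    E.Op t (fun x => D.indu n (t ^ c) x y) (E.rp n (D.pt z)) +
      γ * E.Op t (fun x => if x.1 = n then 1 else 0) (E.rp n (D.pt z)) := by
  have hl := h.lt
  have hp := h.pos
  obtain ⟨γ, hγ⟩ := h.tw R t _ (h.sol_inv t _ (h.io y).2)
  refine ⟨γ, fun z => ?_⟩
  obtain ⟨a1, a2, a3, a4, a5⟩ := h.rp_facts z
  have low : ∀ x : ℤ × ℤ, E.e x.1 x.2 ≠ 0 → 0 ≤ x.1 → x.1 < n →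
      (E.ext M fun x => (h.Q t)⁻¹ x (h.io y).1) x = D.indu n (t ^ c) x y := by
    intro x he h0 h1
    obtain ⟨w, rfl⟩ := D.exists_seg (M := n) x h0 h1 (by rwa [← h.he _ _ h0 h1.le])
    rw [indu_pt, ← h.pt_io, ext_pt, h.inv_low t _ _ (h.io w).2]
    simp [Subtype.val_inj]
  rw [B, h.C_apply, h.pt_io, E.Op_congr' t _
    (fun x => D.indu n (t ^ c) x y + γ * if x.1 = n then 1 else 0) _ a1]
  · simp only [Op]; ring
  · rintro ⟨j, i⟩ he h0 h1
    simp only at he h0 h1 ⊢
    by_cases hj : j = n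
    · subst hj
      have e1 := E.ext_sh (by omega : 0 < M) (fun x => (h.Q t)⁻¹ x (h.io y).1) 1 0 i
      have e2 := D.indu_sh hp (t ^ c) y 1 0 i
      rw [zero_add, one_mul] at e1 e2
      rw [hγ i he, e1, low (0, i) (by rwa [← h.e0]) le_rfl (by omega), e2, tp_one]
      simp [tp]
    · rw [low (j, i) he (by omega) (by omega), if_neg hj]; ring

theorem B0_det (t : Rˣ) : Associated (D.gm n t (t ^ c)).det
    (Matrix.of fun z y => E.Op t (fun x => D.indu n (t ^ c) x y) (E.rp n (D.pt z))).det := by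
  have hp := h.pos
  have e1 : (Matrix.of fun z y => E.Op t (fun x => D.indu n (t ^ c) x y) (E.rp n (D.pt z))) =
      Matrix.of fun z y => (if (D.pt z).1 = 0 ∧ E.e 0 (D.pt z).2 = -1 then tp (t ^ c) 1
        else 1) * D.gm n t (t ^ c) z y := by
    ext z y
    obtain ⟨a1, a2, a3, a4, a5⟩ := h.rp_facts z
    have a := D.pt_lt z
    rw [of_apply, of_apply, h.Op_eq t _ _ a2 a3 a4 a5, rp]
    split_ifs with u v
    · have e2 := D.Op_sh t (tp (t ^ c) 1) (fun x => D.indu n (t ^ c) x y) q (fun j i => by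
        have := D.indu_sh hp (t ^ c) y 1 j i
        rw [one_mul] at this
        rw [← Nat.cast_mul, ← h.hn, this]) 0 (D.pt z).2
      rw [zero_add, ← Nat.cast_mul, ← h.hn] at e2
      rw [e2, gm, ← u.1]
    · omega
    · simp [gm]
  rw [e1, det_mul_column]
  refine associated_unit_mul_right _ _ (IsUnit.prod_univ_iff.2 fun z => ?_)
  split_ifs
  · exact tp_unit _ _
  · exact isUnit_one

theorem det_formula (t : Rˣ) (y : D.Seg n) : Associated (D.gm n t (t ^ c)).det
    ((1 - tp t c) * D.gs (tp t) * (E.gm M t 1).adjugate (h.io y).1 (h.rho (h.io y).1)) := by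
  have hp := h.pos
  refine (h.B0_det t).trans ?_
  set B0 := Matrix.of fun z y => E.Op t (fun x => D.indu n (t ^ c) x y) (E.rp n (D.pt z)) with hB0
  set w : D.Seg n → R := fun z => E.Op t (fun x => if x.1 = n then 1 else 0) (E.rp n (D.pt z))
  choose γ hγ using h.B_eq t
  have h1 : (fun z => ∑ x, (1 : R) • B0 z x) = (-(1 - tp t c)) • w := by
    funext z
    obtain ⟨a1, a2, a3, a4, a5⟩ := h.rp_facts z
    have e1 : ∑ x, (1 : R) • B0 z x =
        E.Op t (fun x => ∑ y, D.indu n (t ^ c) x y * 1) (E.rp n (D.pt z)) := by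
      simp only [hB0, of_apply, Op, one_smul, mul_one, mul_sum, sum_sub_distrib]
    rw [e1, E.Op_congr' t _ (fun x => 1 - (1 - tp t c) * if x.1 = n then 1 else 0) _ a1]
    · simp only [Op, w, Pi.smul_apply, smul_eq_mul]; ring
    · rintro ⟨j, i⟩ he h0 h1
      simp only at he h0 h1 ⊢
      have hn0 : (n : ℤ) ≠ 0 := by omega
      have := D.expand_q h.hn hp (t ^ c) (fun x => tp (t ^ c) (x.1 / n)) (fun a j i => by
        simp only; rw [Int.add_mul_ediv_right _ _ hn0, tp_add, mul_comm]) (j, i)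
        (by rwa [← h.he _ _ (by omega) (by omega)])
      have hz : ∀ y : D.Seg n, (D.pt y).1 / n = 0 := fun y =>
        Int.ediv_eq_zero_of_lt (D.pt_lt y).1 (D.pt_lt y).2
      simp only [hz, tp_zero] at this
      rw [this]
      split_ifs with u
      · rw [u, Int.ediv_self hn0, tp_one]; simp [tp]
      · rw [Int.ediv_eq_zero_of_lt (by omega) (by omega)]; simp
  have h2 := det_updateCol_sum B0 y (fun _ => 1)
  rw [h1, det_updateCol_smul, one_smul] at h2
  have h3 : ((h.B t).updateCol y w).det = (B0.updateCol y w).det := by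
    rw [← det_transpose, ← det_transpose (B0.updateCol y w)]
    refine det_eq_of_forall_row_eq_smul_add_const (fun x => if x = y then 0 else γ x) y
      (by simp) fun a b => ?_
    by_cases hab : a = y
    · simp [hab]
    · simp [updateCol_apply, hab, hγ, hB0, w]
  have h4 := h.sum_io t (fun x => if x.1 = n then (1 : R) else 0)
  have h5 : E.Lf (tp t) (fun x => if x.1 = n then (1 : R) else 0) n -
      E.Lf (tp t) (fun x => if x.1 = n then (1 : R) else 0) 0 = D.gs (tp t) := by
    have e0 : ∀ i, E.e 0 i = D.e 0 i := fun i => h.he 0 i le_rfl (by omega)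
    have : (0 : ℤ) ≠ n := by omega
    simp [Lf, lv, gs, I, Pre, h.e0, e0, h.hN, this]
  have h6 : tp t (E.vI (E.rp n (D.pt y))) * ((h.B t).updateCol y w).det =
      (h.B t).adjugate y y * D.gs (tp t) := by
    rw [← cramer_apply, cramer_eq_adjugate_mulVec, ← h5, ← h4]
    simp only [mulVec, dotProduct, mul_sum]
    refine sum_congr rfl fun s _ => ?_
    have := adj_rel _ _ (h.B_left t) y (tp_unit _ _) y s
    linear_combination w s * this
  rw [← h2, ← h3, neg_mul, mul_assoc]
  refine Associated.neg_left (Associated.mul_left _ ?_)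
  refine (associated_unit_mul_right _ _ (tp_unit t _)).trans ((Associated.of_eq h6).trans ?_)
  rw [mul_comm]
  exact Associated.mul_left _ (h.adj_B t y y)

end Pool.Agent.P.MP_8a22ed_gt.Diag.Setup
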