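import Pool.Agent.P.MP_8a22ed_gt.Defs

/-! Staircase polynomials that satisfy the congruence of Murasugi. -/

set_option linter.unusedSimpArgs false

namespace Pool.Agent.P.MP_8a22ed_gt

open Finset Polynomial

/-- The initial sums of coefficients, as a function on the integers. -/
def fs (Δ : ℤ[X]) (n : ℤ) : ℤ := ∑ i ∈ range (n + 1).toNat, Δ.coeff i

theorem fs_neg (Δ : ℤ[X]) (n : ℤ) (h : n < 0) : fs Δ n = 0 := by
  have : (n + 1).toNat = 0 := by omega
  simp [fs, this]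

theorem fs_sub (Δ : ℤ[X]) (n i : ℕ) :
    (if i ≤ n then Δ.coeff (n - i) else 0) = fs Δ (n - i) - fs Δ (n - (i + 1 : ℕ)) := by
  split_ifs with h
  · have a : ((n : ℤ) - i + 1).toNat = (n - i) + 1 := by omega
    have b : ((n : ℤ) - (i + 1 : ℕ) + 1).toNat = n - i := by omega
    rw [fs, fs, a, b, sum_range_succ]; ring
  · rw [fs_neg _ _ (by omega), fs_neg _ _ (by omega)]; ring

theorem coeff_G (Δ : ℤ[X]) (q n : ℕ) :
    (Δ * ∑ i ∈ range q, X ^ i).coeff n = fs Δ n - fs Δ (n - q) := by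
  rw [mul_sum, finsetSum_coeff]
  simp only [coeff_mul_X_pow', fs_sub]
  rw [sum_range_sub' (fun i : ℕ => fs Δ (n - i))]
  simp

theorem coeff_E {R : Type*} [CommRing R] (Q : R[X]) (q l n : ℕ) (hq : 0 < q) :
    (expand R q Q * ∑ j ∈ range q, X ^ (l * j)).coeff n =
      ∑ j ∈ range q, if l * j ≤ n ∧ q ∣ n - l * j then Q.coeff ((n - l * j) / q) else 0 := by
  rw [mul_sum, finsetSum_coeff]
  refine sum_congr rfl fun j _ => ?_
  rw [coeff_mul_X_pow', coeff_expand hq]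
  by_cases h1 : l * j ≤ n <;> by_cases h2 : q ∣ n - l * j <;> simp [h1, h2]

theorem eq_of_01 {p : ℕ} [Fact p.Prime] {a b : ℤ} (ha : a = 0 ∨ a = 1) (hb : b = 0 ∨ b = 1)
    (h : (a : ZMod p) = b) : a = b := by
  rcases ha with rfl | rfl <;> rcases hb with rfl | rfl <;> simp_all

theorem cancel_X {K : Type*} [Field K] {a c : ℕ} {A B : K[X]} (hA : A.coeff 0 ≠ 0)
    (hB : B.coeff 0 ≠ 0) (h : X ^ a * A = X ^ c * B) : A = B := by
  wlog hac : a ≤ c generalizing a c A B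
  · exact (this hB hA h.symm (by omega)).symm
  obtain ⟨d, rfl⟩ := Nat.exists_eq_add_of_le hac
  rw [pow_add, mul_assoc] at h
  have h2 := mul_left_cancel₀ (pow_ne_zero a X_ne_zero) h
  cases d with
  | zero => simpa using h2
  | succ d => rw [h2] at hA; simp at hA

theorem geom_char {p r n : ℕ} [Fact p.Prime] (hn : n + 1 = p ^ (r + 1)) (y : (ZMod p)[X])
    (hy : y - 1 ≠ 0) : (y - 1) ^ n = ∑ i ∈ range (n + 1), y ^ i := by
  apply mul_left_cancel₀ hy
  rw [mul_geom_sum, ← pow_succ', hn, sub_pow_char_pow, one_pow]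

theorem expand_pp {p : ℕ} [Fact p.Prime] (r : ℕ) (f : (ZMod p)[X]) :
    expand (ZMod p) (p ^ r) f = f ^ p ^ r := by
  induction r with
  | zero => simp
  | succ r ih => rw [pow_succ', expand_mul, ih, ZMod.expand_card, ← pow_mul, mul_comm]

/-- The initial sums predicted by the cabling formula. -/
def gq (Δ : ℤ[X]) (q l : ℕ) (n : ℤ) : ℤ := ∑ j ∈ range q,
  if (q : ℤ) ∣ n - (l * j : ℕ) then fs Δ (n - (l * j : ℕ)) else 0

theorem uniq_res {q l : ℕ} (hl : Nat.Coprime q l) {n : ℤ} {i j : ℕ} (hi : i < q) (hj : j < q)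
    (hd : (q : ℤ) ∣ n - (l * j : ℕ)) (hd2 : (q : ℤ) ∣ n - (l * i : ℕ)) : i = j := by
  have h3 : (q : ℤ) ∣ (l : ℤ) * ((i : ℤ) - j) := by
    have := dvd_sub hd hd2
    push_cast at this
    rw [show (l : ℤ) * ((i : ℤ) - j) = n - l * j - (n - l * i) by ring]
    exact this
  have h4 := Int.dvd_of_dvd_mul_right_of_gcd_one h3 (by simpa using hl)
  have := Int.eq_zero_of_abs_lt_dvd h4 (abs_lt.2 ⟨by omega, by omega⟩)
  omega

theorem gq_single (Δ : ℤ[X]) {q l : ℕ} (hl : Nat.Coprime q l) {n : ℤ} {j : ℕ} (hj : j < q)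
    (hd : (q : ℤ) ∣ n - (l * j : ℕ)) : gq Δ q l n = fs Δ (n - (l * j : ℕ)) := by
  rw [gq, sum_eq_single j, if_pos hd]
  · intro i hi hij
    exact if_neg fun hd2 => hij (uniq_res hl (mem_range.1 hi) hj hd hd2)
  · intro h0; exact absurd (mem_range.2 hj) h0

theorem coeff_Ec (Δ : ℤ[X]) {q : ℕ} (l : ℕ) (hq : 0 < q) (n : ℕ) :
    (expand ℤ q (contract q (Δ * ∑ i ∈ range q, X ^ i)) * ∑ j ∈ range q, X ^ (l * j)).coeff n =
      gq Δ q l n - gq Δ q l (n - q) := by
  rw [coeff_E _ _ _ _ hq]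
  simp only [gq, ← sum_sub_distrib]
  refine sum_congr rfl fun j _ => ?_
  have e1 : (n : ℤ) - q - (l * j : ℕ) = n - (l * j : ℕ) - q := by ring
  rw [e1]
  simp only [dvd_sub_left (dvd_refl (q : ℤ))]
  by_cases h1 : l * j ≤ n
  · rw [← Nat.cast_sub h1]
    simp only [Int.natCast_dvd_natCast, h1, true_and]
    split_ifs with h2
    · rw [coeff_contract hq.ne', Nat.div_mul_cancel h2, coeff_G]
    · simp
  · rw [fs_neg _ _ (by omega), fs_neg _ _ (by omega)]; simp [h1]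

theorem of_hall {q l : ℕ} (hq : 0 < q) {Δ : ℤ[X]} (hS : Stair Δ)
    (hall : ∀ n, fs Δ n = gq Δ q l n) :
    Stair (contract q (Δ * ∑ i ∈ range q, X ^ i)) ∧ Δ * ∑ i ∈ range q, X ^ i =
      expand ℤ q (contract q (Δ * ∑ i ∈ range q, X ^ i)) * ∑ j ∈ range q, X ^ (l * j) := by
  have hid : Δ * ∑ i ∈ range q, X ^ i =
      expand ℤ q (contract q (Δ * ∑ i ∈ range q, X ^ i)) * ∑ j ∈ range q, X ^ (l * j) := by
    ext n
    rw [coeff_Ec _ _ hq, coeff_G, hall, hall]
  refine ⟨⟨?_, ?_, fun n => ?_⟩, hid⟩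
  · rw [coeff_contract hq.ne', coeff_G, fs_neg _ (_ - _) (by omega)]
    simp [fs, hS.1]
  · have := congrArg (eval 1) hid
    conv_rhs at this => rw [eval_mul, expand_eval, one_pow]
    conv_lhs at this => rw [eval_mul, hS.2.1]
    simp only [eval_finsetSum, eval_pow, eval_X, one_pow, sum_const, card_range] at this
    exact (mul_right_cancel₀ (by simpa using hq.ne') this).symm
  · have : ∀ i : ℕ, (contract q (Δ * ∑ i ∈ range q, X ^ i)).coeff i =
        fs Δ (((i + 1 : ℕ) : ℤ) * q - q) - fs Δ ((i : ℤ) * q - q) := by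
      intro i
      rw [coeff_contract hq.ne', coeff_G]
      push_cast; congr 2; ring
    simp only [this]
    rw [sum_range_sub (fun i : ℕ => fs Δ ((i : ℤ) * q - q)), fs_neg _ (((0 : ℕ) : ℤ) * q - q)
      (by omega), sub_zero]
    exact hS.2.2 _

theorem step_of_hall {q l : ℕ} (hq : 0 < q) {Δ : ℤ[X]} (hall : ∀ n, fs Δ n = gq Δ q l n)
    (n : ℤ) (hn : ¬ (q : ℤ) ∣ n) : fs Δ n = fs Δ (n - l) := by
  obtain ⟨q, rfl⟩ : ∃ a, q = a + 1 := ⟨q - 1, by omega⟩
  rw [hall, hall, gq, gq, sum_range_succ', sum_range_succ, if_neg (by simpa using hn), if_neg]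
  · congr 1
    refine sum_congr rfl fun j _ => ?_
    rw [show n - (l * (j + 1) : ℕ) = n - l - (l * j : ℕ) by push_cast; ring]
  · intro h
    apply hn
    have := dvd_add h (dvd_mul_left ((q + 1 : ℕ) : ℤ) l)
    rwa [show n - l - (l * q : ℕ) + l * ((q + 1 : ℕ) : ℤ) = n by push_cast; ring] at this

theorem hall_of_step {q l : ℕ} (hq : 0 < q) (hl : Nat.Coprime q l) {Δ : ℤ[X]}
    (hs : ∀ n : ℤ, ¬ (q : ℤ) ∣ n → fs Δ n = fs Δ (n - l)) (n : ℤ) : fs Δ n = gq Δ q l n := by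
  obtain ⟨a, b, hab⟩ := Nat.isCoprime_iff_coprime.2 hl
  have hq0 : (0 : ℤ) < q := by exact_mod_cast hq
  obtain ⟨j, hj⟩ := Int.eq_ofNat_of_zero_le (Int.emod_nonneg (n * b) hq0.ne')
  have hjq : j < q := by have := Int.emod_lt_of_pos (n * b) hq0; omega
  have hd : (q : ℤ) ∣ n - (l * j : ℕ) := by
    refine ⟨n * a + l * (n * b / q), ?_⟩
    have := Int.emod_add_mul_ediv (n * b) q
    push_cast
    rw [← hj]
    linear_combination (-n) * hab - l * this
  rw [gq_single Δ hl hjq hd]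
  have : ∀ i : ℕ, i ≤ j → fs Δ n = fs Δ (n - (l * i : ℕ)) := by
    intro i
    induction i with
    | zero => simp
    | succ i ih =>
      intro hi
      rw [ih (by omega), hs _ fun h2 => by have := uniq_res hl (by omega) hjq hd h2; omega]
      congr 1; push_cast; ring
  exact this j le_rfl

theorem exact_form {p q l : ℕ} [Fact p.Prime] (hq : 0 < q) (hl : Nat.Coprime q l) {Δ : ℤ[X]}
    (hS : Stair Δ) (Q : (ZMod p)[X])
    (h : (Δ * ∑ i ∈ range q, X ^ i).map (Int.castRingHom (ZMod p)) =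
      expand (ZMod p) q Q * ∑ j ∈ range q, X ^ (l * j)) :
    (∀ n, fs Δ n = gq Δ q l n) ∧
      Q = (contract q (Δ * ∑ i ∈ range q, X ^ i)).map (Int.castRingHom (ZMod p)) := by
  have f01 : ∀ n, fs Δ n = 0 ∨ fs Δ n = 1 := fun n => hS.2.2 _
  have hQ : Q = (contract q (Δ * ∑ i ∈ range q, X ^ i)).map (Int.castRingHom (ZMod p)) := by
    generalize Δ * ∑ i ∈ range q, X ^ i = G at h
    ext i
    have := congrArg (fun P => coeff P (i * q)) h
    simp only [coeff_E _ _ _ _ hq] at this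
    rw [sum_eq_single 0] at this
    · rw [coeff_map, coeff_contract hq.ne', ← coeff_map, this]
      simp [hq]
    · intro j hj hj0
      rw [if_neg]
      rintro ⟨h1, h2⟩
      have h3 : q ∣ l * j := (Nat.dvd_sub_iff_right h1 (dvd_mul_left q i)).1 h2
      have h4 := Nat.le_of_dvd (Nat.pos_of_ne_zero hj0) (hl.dvd_of_dvd_mul_left h3)
      have := mem_range.1 hj
      omega
    · intro h0; exact absurd (mem_range.2 hq) h0
  have g01 : ∀ n, gq Δ q l n = 0 ∨ gq Δ q l n = 1 := by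
    intro n
    by_cases hx : ∃ j ∈ range q, (q : ℤ) ∣ n - (l * j : ℕ)
    · obtain ⟨j, hj, hd⟩ := hx
      rw [gq_single Δ hl (mem_range.1 hj) hd]
      exact f01 _
    · left
      exact sum_eq_zero fun j hj => if_neg fun hd => hx ⟨j, hj, hd⟩
  have hmod : ∀ n : ℕ, ((fs Δ n - fs Δ (n - q) : ℤ) : ZMod p) =
      (gq Δ q l n - gq Δ q l (n - q) : ℤ) := by
    intro n
    rw [← coeff_Ec _ _ hq, ← coeff_G, ← eq_intCast (Int.castRingHom (ZMod p)),
      ← eq_intCast (Int.castRingHom (ZMod p)), ← coeff_map, ← coeff_map, h, hQ]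
    simp [Polynomial.map_sum, map_expand]
  have hneg : ∀ n : ℤ, n < 0 → fs Δ n = gq Δ q l n := by
    intro n hn
    rw [fs_neg _ _ hn]
    refine (sum_eq_zero fun j _ => ?_).symm
    rw [fs_neg _ _ (by omega)]; simp
  have hnat : ∀ n : ℕ, fs Δ n = gq Δ q l n := by
    intro n
    induction n using Nat.strong_induction_on with
    | _ n ih =>
      have h1 : fs Δ (n - q) = gq Δ q l (n - q) := by
        by_cases h2 : q ≤ n
        · rw [← Nat.cast_sub h2]; exact ih _ (by omega)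
        · exact hneg _ (by omega)
      have h3 := hmod n
      rw [h1] at h3
      push_cast at h3
      exact eq_of_01 (p := p) (f01 _) (g01 _) (sub_left_inj.1 h3)
  refine ⟨fun n => ?_, hQ⟩
  by_cases hn : n < 0
  · exact hneg n hn
  · obtain ⟨k, rfl⟩ := Int.eq_ofNat_of_zero_le (not_lt.1 hn); exact hnat k

theorem polyA {p r n l a b : ℕ} [Fact p.Prime] (hn : n + 1 = p ^ (r + 1)) {Δ Δ' : ℤ[X]}
    (hS : Stair Δ) {ε : ℤ} (hε : ε = 1 ∨ ε = -1)
    (h : X ^ a * ((X - 1) ^ n * Δ.map (Int.castRingHom (ZMod p))) = (ε : (ZMod p)[X]) * X ^ b *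
      Δ'.map (Int.castRingHom (ZMod p)) ^ (n + 1) * (X ^ l - 1) ^ n) :
    ¬ p ∣ l ∧ (∀ a, fs Δ a = gq Δ (n + 1) l a) ∧ ∃ (k : ℕ) (δ : ℤ),
        (δ = 1 ∨ δ = -1) ∧ Δ'.map (Int.castRingHom (ZMod p)) =
          ((δ : ℤ[X]) * X ^ k * contract (n + 1) (Δ * ∑ i ∈ range (n + 1), X ^ i)).map
            (Int.castRingHom (ZMod p)) := by
  have hp : p.Prime := Fact.out
  have hn0 : n ≠ 0 := by
    have := Nat.one_lt_pow (n := r + 1) (by omega) hp.one_lt
    omega
  have hX : (X - 1 : (ZMod p)[X]) ≠ 0 := by simpa using X_sub_C_ne_zero (1 : ZMod p)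
  have h1 : (1 : ZMod p) = ε * (Δ'.map (Int.castRingHom (ZMod p))).eval 1 ^ (n + 1) * l ^ n := by
    rw [← mul_geom_sum X l, mul_pow] at h
    have h2 : X ^ a * Δ.map (Int.castRingHom (ZMod p)) = (ε : (ZMod p)[X]) * X ^ b *
        Δ'.map (Int.castRingHom (ZMod p)) ^ (n + 1) * (∑ i ∈ range l, X ^ i) ^ n := by
      apply mul_left_cancel₀ (pow_ne_zero n hX)
      linear_combination h
    have h3 := congrArg (eval 1) h2
    rw [eval_mul, eval_one_map, hS.2.1] at h3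
    simpa [eval_finsetSum] using h3
  have hl : ¬ p ∣ l := by
    intro hd
    rw [(ZMod.natCast_eq_zero_iff l p).2 hd, zero_pow hn0, mul_zero] at h1
    exact one_ne_zero h1
  have hl0 : l ≠ 0 := by rintro rfl; exact hl (dvd_zero p)
  have hD : Δ'.map (Int.castRingHom (ZMod p)) ≠ 0 := by
    intro h0; rw [h0] at h1; simp at h1
  obtain ⟨Q, hQ, hQ0⟩ := exists_eq_pow_rootMultiplicity_mul_and_not_dvd _ hD 0
  rw [C_0, sub_zero] at hQ hQ0
  rw [X_dvd_iff] at hQ0
  set k := rootMultiplicity 0 (Δ'.map (Int.castRingHom (ZMod p)))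
  have hXl : (X ^ l - 1 : (ZMod p)[X]) ≠ 0 := by
    simpa using X_pow_sub_C_ne_zero (Nat.pos_of_ne_zero hl0) (1 : ZMod p)
  have hε0 : (ε : ZMod p) ≠ 0 := by rcases hε with rfl | rfl <;> simp
  have h4 : (Δ * ∑ i ∈ range (n + 1), X ^ i).map (Int.castRingHom (ZMod p)) =
      expand (ZMod p) (n + 1) (ε * Q) * ∑ j ∈ range (n + 1), X ^ (l * j) := by
    refine cancel_X (a := a) (c := b + k * (n + 1)) ?_ ?_ ?_
    · rw [coeff_map, coeff_G, fs_neg _ (_ - _) (by omega)]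
      simp [fs, hS.1]
    · rw [coeff_E _ _ _ _ n.succ_pos, sum_eq_single 0]
      · simpa [hε0] using hQ0
      · intro j _ hj; simp [hl0, hj]
      · simp
    · rw [geom_char hn _ hX, geom_char hn _ hXl, hQ] at h
      rw [map_mul, map_intCast, show expand (ZMod p) (n + 1) Q = Q ^ (n + 1) by
        rw [hn, expand_pp]]
      simp only [Polynomial.map_mul, Polynomial.map_sum, Polynomial.map_pow, map_X, pow_mul,
        pow_add X b]
      rw [mul_pow] at h
      linear_combination h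
  obtain ⟨e0, q0⟩ := exact_form n.succ_pos
    (show Nat.Coprime (n + 1) l by
      rw [hn]; exact Nat.Coprime.pow_left _ ((Nat.Prime.coprime_iff_not_dvd hp).2 hl)) hS _ h4
  refine ⟨hl, e0, k, ε, hε, ?_⟩
  have i3 : (ε : (ZMod p)[X]) * ε = 1 := by rcases hε with rfl | rfl <;> simp
  rw [Polynomial.map_mul, Polynomial.map_mul, ← q0, Polynomial.map_pow, map_X,
    Polynomial.map_intCast]
  linear_combination hQ - (X ^ k * Q) * i3

end Pool.Agent.P.MP_8a22ed_gt
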