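import Pool.Agent.P.MP_8a22ed_gt.Mura
import Pool.Agent.P.MP_8a22ed_gt.Poly

/-! The cabling formula and the passage to cyclotomic products. -/

set_option linter.unusedSimpArgs false

namespace Pool.Agent.P.MP_8a22ed_gt

open Finset Polynomial LaurentPolynomial

/-- The same diagram with a multiple of the period. -/
def Diag.rep {m : ℕ} (D : Diag m) (z : ℕ) : Diag (z * m) :=
  { D with
    e_per := fun j i => by push_cast; exact D.e_sh z j i
    kind_per := fun j => by push_cast; exact D.kind_sh z j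
    k_per := fun j => by push_cast; exact D.k_sh z j }

theorem Diag.exists_alex {m : ℕ} (D : Diag m) (M : ℕ) (s : D.Seg M) : ∃ Δ, D.IsAlex M Δ := by
  obtain ⟨n, f, h⟩ := exists_T_pow ((D.alex M).adjugate s s)
  refine ⟨f, s, s, -n, 1, Or.inl rfl, ?_⟩
  rw [h, mul_comm _ (T n), ← mul_assoc, Int.cast_one, one_mul, ← T_add]; simp

theorem Diag.pp {m : ℕ} (D : Diag m) {p r q : ℕ} (hp : p.Prime) (hq : q = p ^ (r + 1))
    {Δ Δ' : ℤ[X]} (h : D.IsAlex (q * m) Δ) (hS : Stair Δ) (h' : D.IsAlex m Δ') :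
    ¬ p ∣ D.lk.natAbs ∧ (∀ a, fs Δ a = gq Δ q D.lk.natAbs a) ∧ ∃ (k : ℕ) (δ : ℤ),
      (δ = 1 ∨ δ = -1) ∧ Δ'.map (Int.castRingHom (ZMod p)) =
        ((δ : ℤ[X]) * X ^ k * contract q (Δ * ∑ i ∈ range q, X ^ i)).map
          (Int.castRingHom (ZMod p)) := by
  have : Fact p.Prime := ⟨hp⟩
  obtain ⟨n, rfl⟩ : ∃ n, q = n + 1 := ⟨q - 1, by have := pow_pos hp.pos (r + 1); omega⟩
  obtain ⟨a, b, ε, hε, H⟩ := D.mura1 p r n hq h h'
  exact polyA hq hS hε H

theorem Diag.pp_dvd {m : ℕ} (D : Diag m) {p r q : ℕ} (hp : p.Prime) (hq : p ^ (r + 1) ∣ q)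
    {Δ : ℤ[X]} (h : D.IsAlex (q * m) Δ) (hS : Stair Δ) :
    ¬ p ∣ D.lk.natAbs ∧ ∀ a, fs Δ a = gq Δ (p ^ (r + 1)) D.lk.natAbs a := by
  obtain ⟨z, rfl⟩ := hq
  rw [mul_assoc] at h
  have h1 : (D.rep z).IsAlex (p ^ (r + 1) * (z * m)) Δ := h
  obtain ⟨s, -⟩ := id h1
  obtain ⟨Δ', h'⟩ := (D.rep z).exists_alex (z * m) (((D.rep z).phi _).symm s).1
  have := (D.rep z).pp hp rfl h1 hS h'
  exact ⟨this.1, this.2.1⟩

theorem Diag.cable {m : ℕ} (D : Diag m) {q : ℕ} {Δ : ℤ[X]} (h : D.IsAlex (q * m) Δ)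
    (hS : Stair Δ) : 0 < q ∧ Nat.Coprime q D.lk.natAbs ∧ ∀ a, fs Δ a = gq Δ q D.lk.natAbs a := by
  have hq : 0 < q := by
    obtain ⟨s, -⟩ := h
    exact Nat.pos_of_mul_pos_right (Fin.pos s.1.1)
  have hc : Nat.Coprime q D.lk.natAbs := Nat.coprime_of_dvd fun p hp hd =>
    (D.pp_dvd (r := 0) hp (by simpa using hd) h hS).1
  refine ⟨hq, hc, hall_of_step hq hc fun n hn => ?_⟩
  rw [← Int.dvd_natAbs, Int.natCast_dvd_natCast, Nat.dvd_iff_prime_pow_dvd_dvd] at hn
  push Not at hn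
  obtain ⟨p, k, hp, h1, h2⟩ := hn
  cases k with
  | zero => simp at h2
  | succ k =>
    refine step_of_hall (pow_pos hp.pos _) (D.pp_dvd hp h1 h hS).2 n ?_
    rwa [← Int.dvd_natAbs, Int.natCast_dvd_natCast]

theorem stair_eq {p : ℕ} (hp : p.Prime) {A B : ℤ[X]} (hA : Stair A) (hB : Stair B)
    (h : A.map (Int.castRingHom (ZMod p)) = B.map (Int.castRingHom (ZMod p))) : A = B := by
  have : Fact p.Prime := ⟨hp⟩
  have h1 : ∀ n, ∑ i ∈ range n, A.coeff i = ∑ i ∈ range n, B.coeff i := by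
    intro n
    refine eq_of_01 (p := p) (hA.2.2 n) (hB.2.2 n) ?_
    push_cast
    refine sum_congr rfl fun i _ => ?_
    simpa using congrArg (fun P => coeff P i) h
  ext n
  have a := h1 (n + 1)
  rw [sum_range_succ, sum_range_succ, h1 n] at a
  exact add_left_cancel a

theorem stair_eq' {p : ℕ} (hp : p.Prime) {A B : ℤ[X]} (hA : Stair A) (hB : Stair B) {k : ℕ}
    {δ : ℤ} (h : A.map (Int.castRingHom (ZMod p)) =
      ((δ : ℤ[X]) * X ^ k * B).map (Int.castRingHom (ZMod p))) : A = B := by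
  have : Fact p.Prime := ⟨hp⟩
  have h0 := congrArg (fun P => coeff P 0) h
  simp only [coeff_map, mul_coeff_zero, hA.1, hB.1, coeff_X_pow, map_mul, map_one] at h0
  cases k with
  | succ k => simp at h0
  | zero =>
    refine stair_eq hp hA hB ?_
    have h1 : (δ : ZMod p) = 1 := by simpa [← C_eq_intCast, -eq_intCast] using h0.symm
    rw [h, Polynomial.map_mul, Polynomial.map_mul, Polynomial.map_intCast, ← C_eq_intCast, h1]
    simp

theorem stair_monic {A : ℤ[X]} (hA : Stair A) : A.Monic := by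
  have h0 : A ≠ 0 := by intro h; have := hA.1; rw [h] at this; simp at this
  have h1 := hA.2.1
  rw [eval_eq_sum_range, sum_range_succ] at h1
  simp only [one_pow, mul_one] at h1
  have h2 := hA.2.2 A.natDegree
  have h3 : A.coeff A.natDegree ≠ 0 := leadingCoeff_ne_zero.2 h0
  unfold Monic leadingCoeff
  omega

theorem prod_cyc (n : ℕ) : ∀ A : ℤ[X], A.natDegree = n → A.Monic →
    (∀ x : ℂ, aeval x A = 0 → IsOfFinOrder x) →
    ∃ s : Multiset ℕ, (∀ d ∈ s, 0 < d) ∧ A = (s.map fun d => cyclotomic d ℤ).prod := by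
  induction n using Nat.strong_induction_on with
  | _ n ih =>
    intro A hn hm hr
    by_cases h0 : A.natDegree = 0
    · exact ⟨0, by simp, by simpa using hm.natDegree_eq_zero.1 h0⟩
    obtain ⟨x, hx⟩ := IsAlgClosed.exists_aeval_eq_zero_of_injective ℂ
      (algebraMap ℤ ℂ).injective_int A (fun h => h0 (natDegree_eq_of_degree_eq_some h))
    have hf := hr x hx
    have hpos := hf.orderOf_pos
    have hprim := IsPrimitiveRoot.orderOf x
    obtain ⟨B, hB⟩ : cyclotomic (orderOf x) ℤ ∣ A := by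
      rw [cyclotomic_eq_minpoly hprim hpos]
      exact minpoly.isIntegrallyClosed_dvd (hprim.isIntegral hpos) hx
    have hc := cyclotomic.monic (orderOf x) ℤ
    have hBm : B.Monic := hc.of_mul_monic_left (hB ▸ hm)
    have hd : A.natDegree = (cyclotomic (orderOf x) ℤ).natDegree + B.natDegree := by
      rw [hB, hc.natDegree_mul hBm]
    have hcd : 0 < (cyclotomic (orderOf x) ℤ).natDegree := by
      rw [natDegree_cyclotomic]; exact Nat.totient_pos.2 hpos
    obtain ⟨s, hs, hs2⟩ := ih B.natDegree (by omega) B rfl hBm fun y hy =>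
      hr y (by rw [hB, map_mul, hy, mul_zero])
    refine ⟨orderOf x ::ₘ s, fun d hd => ?_, by rw [Multiset.map_cons, Multiset.prod_cons, ← hs2, ← hB]⟩
    rcases Multiset.mem_cons.1 hd with rfl | hd
    · exact hpos
    · exact hs d hd

theorem fin_of_closed {A : ℤ[X]} (hA : Stair A) {q : ℕ} (hq : 1 < q)
    (h : ∀ x : ℂ, aeval x A = 0 → ¬ IsOfFinOrder x → aeval (x ^ q) A = 0) (x : ℂ)
    (hx : aeval x A = 0) : IsOfFinOrder x := by
  by_contra hc
  have h1 : ∀ n : ℕ, aeval (x ^ q ^ n) A = 0 := by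
    intro n
    induction n with
    | zero => simpa using hx
    | succ n ih =>
      rw [pow_succ, pow_mul]
      refine h _ ih fun hf => hc ?_
      exact (isOfFinOrder_pow.1 hf).resolve_right (pow_pos (by omega) n).ne'
  have hx0 : x ≠ 0 := by
    rintro rfl
    rw [← coeff_zero_eq_aeval_zero', hA.1] at hx
    simp at hx
  have hinj : Function.Injective fun n : ℕ => x ^ q ^ n := by
    intro a b hab
    have hu : ¬ IsOfFinOrder (Units.mk0 x hx0) := by rwa [← Units.isOfFinOrder_val]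
    have : (Units.mk0 x hx0) ^ q ^ a = (Units.mk0 x hx0) ^ q ^ b := Units.ext (by simpa using hab)
    exact Nat.pow_right_injective hq (injective_pow_iff_not_isOfFinOrder.2 hu this)
  have hm := (stair_monic hA).map (algebraMap ℤ ℂ)
  refine hm.ne_zero (eq_zero_of_infinite_isRoot _ ?_)
  exact Set.infinite_of_injective_forall_mem hinj fun n => by
    simpa [aeval_def, eval_map] using h1 n

end Pool.Agent.P.MP_8a22ed_gt
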