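import Pool.Agent.P.MP_8a22ed_gt.Elim2
import Pool.Agent.P.MP_8a22ed_gt.Defs2
import Pool.Agent.P.MP_8a22ed_gt.Main

/-! The factorisation of Hartley for the diagrams of `Defs2`. -/

set_option linter.unusedSimpArgs false

namespace Pool.Agent.P.MP_8a22ed_gt.Diag

open Finset Matrix Polynomial LaurentPolynomial

variable {m M : ℕ} (D : Diag m)

theorem setup_of {E : Diag M} {q s : ℕ} (h : D.IsTwist E q s) (hq : 0 < q) (hm : 0 < m)
    (hs : 0 < s) : Setup D E q (q * m) (-(s * D.lk)) := by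
  obtain ⟨h2, hN, hM, he, hk, htw⟩ := h
  obtain ⟨n, hn⟩ : ∃ n, D.N = n + 1 := ⟨D.N - 1, by omega⟩
  rw [hn, Nat.add_sub_cancel] at hM htw
  have hw : 0 < s * (n + 1) * n := Nat.mul_pos (Nat.mul_pos hs n.succ_pos) (by omega)
  refine ⟨rfl, Nat.mul_pos hq hm, by omega, hN, by exact_mod_cast he, by exact_mod_cast hk,
    fun j h0 h1 => ?_, fun R _ t G hG => ?_⟩
  · have := (htw (j - (q * m : ℕ)).toNat (by omega)).1
    rwa [show (q : ℤ) * m + ((j - (q * m : ℕ)).toNat : ℕ) = j by push_cast at h0 ⊢; omega] at this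
  · obtain ⟨γ, hγ⟩ := E.twists (t := t) (G := G) ((q * m : ℕ) : ℤ) n s fun a ha => by
      refine ⟨?_, ?_, hG _ (by omega) (by omega)⟩
      · exact_mod_cast (htw a ha).1
      · exact_mod_cast (htw a ha).2
    refine ⟨γ, fun i u => ?_⟩
    have b1 : 0 ≤ i ∧ i < E.N := by
      by_contra hc
      exact u (E.e_out _ i (by omega))
    have e1 : ∑ b ∈ range (n + 1), E.e ((q * m : ℕ) : ℤ) b = D.lk := by
      rw [lk, hn]
      refine sum_congr rfl fun b _ => ?_
      rw [he _ _ (by positivity) (by push_cast; rfl)]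
      simpa using D.e_sh q 0 b
    rw [hγ i b1.1 (by omega) u, e1, hM]
    push_cast; rfl

theorem det_cover {R : Type*} [CommRing R] [IsDomain R] (q : ℕ) (t ζ u : Rˣ)
    (hζ : IsPrimitiveRoot (ζ : R) q) :
    (D.gm (q * m) t (u ^ q)).det = ∏ a : Fin q, (D.gm m t (ζ ^ (a : ℕ) * u)).det := by
  have hz : ζ ^ q = 1 := Units.ext (by simpa using hζ.pow_eq_one)
  let U : Matrix (D.Seg m × Fin q) (D.Seg m × Fin q) R := fun x y =>
    if x.1 = y.1 then ((ζ ^ (y.2 : ℕ) * u : Rˣ) : R) ^ (x.2 : ℕ) else 0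
  have tpn : ∀ (w : Rˣ) (b : ℕ), tp w b = (w : R) ^ b := fun w b => by simp [tp]
  have hU : ∀ x y, U x y = D.indu m (ζ ^ (y.2 : ℕ) * u) (D.pt (D.phi q x)) y.1 := by
    rintro ⟨x, b⟩ y
    rw [pt_phi, D.indu_sh (Fin.pos x.1.1), indu_pt, tpn]
    simp [U]
  have h1 : (D.gm (q * m) t (u ^ q)).submatrix (D.phi q) (D.phi q) * U =
      U * blockDiagonal (fun a : Fin q => D.gm m t (ζ ^ (a : ℕ) * u)) := by
    ext ⟨x, b⟩ ⟨y, a⟩
    have h0 : 0 < m := Fin.pos x.1.1
    have h1 := D.gm_mulVec (M := q * m) rfl t (u ^ q)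
      (fun p => D.indu m (ζ ^ (a : ℕ) * u) p y) (fun c j i => by
        have e1 : c * ((q * m : ℕ) : ℤ) = (c * q) * m := by push_cast; ring
        have e2 : tp (ζ ^ (a : ℕ) * u) (c * q) = tp (u ^ q) c := by
          rw [tp, mul_comm c, _root_.zpow_mul, zpow_natCast, mul_pow, ← pow_mul, mul_comm _ q,
            pow_mul, hz, one_pow, one_mul, tp]
        simp only [e1]
        rw [D.indu_sh h0, e2]) (D.phi q (x, b))
    have h2 : ((D.gm (q * m) t (u ^ q)).submatrix (D.phi q) (D.phi q) * U) (x, b) (y, a) =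
        (D.gm (q * m) t (u ^ q) *ᵥ fun z => D.indu m (ζ ^ (a : ℕ) * u) (D.pt z) y)
          (D.phi q (x, b)) := by
      simp only [mul_apply, submatrix_apply, mulVec, dotProduct, hU]
      exact Equiv.sum_comp (D.phi q) (fun z => D.gm (q * m) t (u ^ q) (D.phi q (x, b)) z *
        D.indu m (ζ ^ (a : ℕ) * u) (D.pt z) y)
    rw [h2, h1, pt_phi, D.Op_sh t _ _ _ (D.indu_sh h0 _ y _), tpn, mul_apply,
      sum_eq_single (x, a)]
    · simp [U, gm]
    · rintro ⟨z, c⟩ _ hne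
      by_cases hz : x = z
      · subst hz
        have : c ≠ a := fun h => hne (by rw [h])
        simp [blockDiagonal_apply, this]
      · simp [U, hz]
    · simp
  have h3 : U.det ≠ 0 := by
    intro h
    obtain ⟨v, hv, h2⟩ := exists_mulVec_eq_zero_iff.2 h
    apply hv
    funext ⟨x, a⟩
    have := eq_zero_of_forall_pow_sum_mul_pow_eq_zero
      (f := fun c : Fin q => ((ζ ^ (c : ℕ) * u : Rˣ) : R)) (v := fun c => v (x, c))
      (fun c d hcd => Fin.ext (hζ.pow_inj c.2 d.2 (by simpa using hcd))) (fun b => by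
        have := congrFun h2 (x, b)
        simp only [mulVec, dotProduct, U, Fintype.sum_prod_type, ite_mul, zero_mul] at this
        rw [sum_comm] at this
        simpa [mul_comm] using this)
    exact congrFun this a
  have h4 := congrArg det h1
  rw [det_mul, det_mul, det_blockDiagonal, det_submatrix_equiv_self, mul_comm] at h4
  exact mul_left_cancel₀ h3 h4

theorem alexT_map {R : Type*} [CommRing R] (x : Rˣ) (q c : ℤ) :
    (D.alexT q c).map (LaurentPolynomial.eval₂ (Int.castRingHom R) x) =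
      D.gm m (x ^ q) (x ^ c) := by
  ext s y
  simp only [Matrix.map_apply, alexT, gm, Op, indT, indu, map_sub, map_mul, map_one, eval₂_T,
    apply_ite (LaurentPolynomial.eval₂ (Int.castRingHom R) x), map_zero, tp, _root_.zpow_mul]

theorem isAlexQ_all {q s : ℕ} {g : ℤ[X]} (h : D.IsAlexQ q s g) (R : Type) [CommRing R]
    (x : Rˣ) : Associated ((D.gm m (x ^ q) (x ^ (-(s * D.lk)))).det * (x - 1))
      (aeval (x : R) g * (tp x D.lk - 1) * (tp x (-(s * D.lk)) - 1)) := by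
  obtain ⟨n, ε, hε, h⟩ := h
  have h2 := congrArg (LaurentPolynomial.eval₂ (Int.castRingHom R) x) h
  simp only [map_mul, map_sub, map_one, eval₂_T, eval₂_toLaurent, map_intCast, RingHom.map_det,
    RingHom.mapMatrix_apply, alexT_map, zpow_natCast, zpow_one] at h2
  rw [h2, aeval_def, algebraMap_int_eq, mul_assoc, mul_assoc, mul_assoc, ← mul_assoc,
    ← mul_assoc (Polynomial.eval₂ _ _ _)]
  exact associated_unit_mul_left _ _
    (((Int.isUnit_iff.2 hε).map (Int.castRingHom R)).mul (Units.isUnit _))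

theorem cover_formula {E : Diag M} {q s : ℕ} (h : D.IsTwist E q s) (hq : 0 < q) (hm : 0 < m)
    (hs : 0 < s) (hl : D.lk ≠ 0) {Δ : ℤ[X]} (hΔ : E.IsAlex M Δ) (R : Type) [CommRing R]
    (x : Rˣ) : Associated ((D.gm (q * m) (x ^ q) ((x ^ (-(s * D.lk))) ^ q)).det * (x ^ q - 1))
      (aeval ((x : R) ^ q) Δ * (tp x D.lk ^ q - 1) * (tp x (-(s * D.lk)) ^ q - 1)) := by
  have hS := D.setup_of h hq hm hs
  obtain ⟨i, -, hi⟩ := exists_ne_zero_of_sum_ne_zero hl
  obtain ⟨y, -⟩ := D.exists_seg (M := q * m) (0, i) le_rfl (Int.natCast_pos.2 hS.pos) hi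
  obtain ⟨n, ε, hε, e1⟩ := E.isAlex_all (one_mul M).symm hΔ (hS.io y).1 (hS.rho (hS.io y).1)
  have h1 := hS.det_formula (x ^ q) y
  have e2 : ∀ c : ℤ, (x ^ q) ^ c = (x ^ c) ^ q := fun c => by
    rw [← zpow_natCast, ← zpow_natCast, ← _root_.zpow_mul, ← _root_.zpow_mul, mul_comm]
  have e3 : ∀ c : ℤ, tp (x ^ q) c = tp x c ^ q := fun c => by
    rw [tp, e2, tp, Units.val_pow_eq_pow_val]
  have G := D.gs_tel (tp (x ^ q)) (x ^ q : Rˣ) (fun k => by rw [tp_add, tp_one])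
  rw [tp_zero, e3, Units.val_pow_eq_pow_val] at G
  rw [e1, e2, e3, Units.val_pow_eq_pow_val] at h1
  refine (h1.mul_right _).trans ?_
  rw [← G]
  have u : IsUnit (-((ε : R) * tp (x ^ q) n)) :=
    (((Int.isUnit_iff.2 hε).map (Int.castRingHom R)).mul (tp_unit _ _)).neg
  refine (Associated.of_eq ?_).trans (associated_unit_mul_left _ _ u)
  ring

theorem free_root {E : Diag M} {q s : ℕ} (h : D.IsTwist E q s) (hq : 0 < q) (hm : 0 < m)
    (hs : 0 < s) (hl : D.lk ≠ 0) {Δ g : ℤ[X]} (hΔ : E.IsAlex M Δ) (hg : D.IsAlexQ q s g)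
    (x : ℂ) (hx : x ≠ 0) (h0 : aeval x g = 0) (hf : ¬ IsOfFinOrder x) : aeval (x ^ q) Δ = 0 := by
  have hz := Complex.isPrimitiveRoot_exp q hq.ne'
  have ne : ∀ c : ℤ, c ≠ 0 → tp (Units.mk0 x hx) c ^ q - 1 ≠ 0 := by
    intro c hc h1
    apply hf
    have : IsOfFinOrder (Units.mk0 x hx) := isOfFinOrder_iff_zpow_eq_one.2 ⟨c * q,
      mul_ne_zero hc (by exact_mod_cast hq.ne'), Units.ext (by
        rw [_root_.zpow_mul, zpow_natCast, Units.val_pow_eq_pow_val]; exact sub_eq_zero.1 h1)⟩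
    exact Units.isOfFinOrder_val.2 this
  have h1 := D.isAlexQ_all hg ℂ (Units.mk0 x hx)
  rw [Units.val_mk0, h0, zero_mul, zero_mul, associated_zero_iff_eq_zero] at h1
  have h2 := (mul_eq_zero.1 h1).resolve_right fun h3 => hf (by
    rw [sub_eq_zero.1 h3]; exact IsOfFinOrder.one)
  have h3 := D.cover_formula h hq hm hs hl hΔ ℂ (Units.mk0 x hx)
  rw [D.det_cover q _ (Units.mk0 _ (hz.ne_zero hq.ne')) _ hz,
    prod_eq_zero (mem_univ (⟨0, hq⟩ : Fin q)) (by simpa using h2), zero_mul, Units.val_mk0] at h3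
  have h4 := (associated_zero_iff_eq_zero _).1 h3.symm
  exact (mul_eq_zero.1 ((mul_eq_zero.1 h4).resolve_right (ne _ (neg_ne_zero.2
    (mul_ne_zero (by exact_mod_cast hs.ne') hl))))).resolve_right (ne _ hl)

theorem det_cover_p (p r : ℕ) [Fact p.Prime] (S : Type) [CommRing S] (f : ZMod p →+* S)
    (x : Sˣ) (a c : ℤ) : (D.gm (p ^ (r + 1) * m) (x ^ a) ((x ^ c) ^ p ^ (r + 1))).det =
      (D.gm m (x ^ a) (x ^ c)).det ^ p ^ (r + 1) := by
  have hq : 0 < p ^ (r + 1) := pow_pos (Fact.out : p.Prime).pos _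
  let O := AdjoinRoot (cyclotomic (p ^ (r + 1)) ℤ)
  have : IsDomain O := AdjoinRoot.isDomain_of_prime (cyclotomic.irreducible hq).prime
  have : CharZero O := charZero_of_injective_ringHom (f := AdjoinRoot.of _)
    (AdjoinRoot.of.injective_of_degree_ne_zero (degree_cyclotomic_pos _ ℤ hq).ne')
  have hz0 : IsPrimitiveRoot (AdjoinRoot.root (cyclotomic (p ^ (r + 1)) ℤ) : O) (p ^ (r + 1)) := by
    refine (isRoot_cyclotomic_iff_charZero (R := O) hq).1 ?_
    have := AdjoinRoot.isRoot_root (cyclotomic (p ^ (r + 1)) ℤ)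
    rwa [map_cyclotomic] at this
  have hC : Function.Injective (LaurentPolynomial.C : O →+* O[T;T⁻¹]) := fun a b hab => by
    have := congrArg (LaurentPolynomial.eval₂ (RingHom.id O) 1) hab
    simpa only [LaurentPolynomial.eval₂_C, RingHom.id_apply] using this
  have hz := hz0.map_of_injective hC
  have hf := D.det_cover (p ^ (r + 1)) ((isUnit_T (R := O) 1).unit ^ a) (hz.isUnit hq.ne').unit
    ((isUnit_T (R := O) 1).unit ^ c) hz
  let g : O →+* S := AdjoinRoot.lift (Int.castRingHom S) 1 (by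
    rw [eval₂_at_one, eval_one_cyclotomic_prime_pow, map_natCast, ← map_natCast f,
      ZMod.natCast_self, map_zero])
  let ψ : O[T;T⁻¹] →+* S := LaurentPolynomial.eval₂ g x
  have ht : ψ (isUnit_T (R := O) 1).unit = x := by simp [ψ]
  have hk : ∀ k : ℤ, ψ ((isUnit_T (R := O) 1).unit ^ k : O[T;T⁻¹]ˣ) = (x ^ k : Sˣ) :=
    fun k => tp_map ψ _ x ht k
  have hg : g (AdjoinRoot.root _) = 1 := AdjoinRoot.lift_root _
  have hζ : ψ (hz.isUnit hq.ne').unit = 1 := by simp [ψ, LaurentPolynomial.eval₂_C, hg]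
  have E := congrArg ψ hf
  rw [map_prod, RingHom.map_det, RingHom.mapMatrix_apply,
    D.gm_map ψ _ _ (x ^ a) ((x ^ c) ^ p ^ (r + 1)) (hk a) (by
      rw [Units.val_pow_eq_pow_val, map_pow, hk, Units.val_pow_eq_pow_val])] at E
  rw [E, prod_congr rfl (g := fun _ => (D.gm m (x ^ a) (x ^ c)).det)]
  · simp
  · intro b _
    rw [RingHom.map_det, RingHom.mapMatrix_apply, D.gm_map ψ _ _ (x ^ a) (x ^ c) (hk a) (by
      rw [Units.val_mul, map_mul, Units.val_pow_eq_pow_val, map_pow, hζ, hk, one_pow, one_mul])]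

theorem eq_of_assoc {K : Type} [Field K] {A B : K[X]} (hA : A.coeff 0 = 1) (hB : B.coeff 0 = 1)
    (h : Associated (toLaurent A) (toLaurent B)) : A = B := by
  obtain ⟨u, hu⟩ := h
  obtain ⟨a, w, hw⟩ := exists_T_pow (u : K[T;T⁻¹])
  obtain ⟨b, w', hw'⟩ := exists_T_pow ((u⁻¹ : K[T;T⁻¹]ˣ) : K[T;T⁻¹])
  have h1 : w * w' = X ^ (a + b) := by
    apply toLaurent_injective
    rw [map_mul, hw, hw', toLaurent_X_pow, mul_mul_mul_comm, Units.mul_inv, one_mul, ← T_add]
    simp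
  obtain ⟨i, -, v, hv⟩ := (dvd_prime_pow prime_X _).1 ⟨w', h1.symm⟩
  have h2 : X ^ i * A = X ^ a * (B * (v : K[X])) := by
    apply toLaurent_injective
    rw [← hv]
    simp only [map_mul, hw, toLaurent_X_pow, ← hu]; ring
  obtain ⟨k, hk, hkv⟩ := Polynomial.isUnit_iff.1 v.isUnit
  have h3 := cancel_X (by rw [hA]; exact one_ne_zero)
    (by rw [← hkv, coeff_mul_C, hB, one_mul]; exact hk.ne_zero) h2
  have h4 := congrArg (fun P => coeff P 0) h3
  simp only [← hkv, coeff_mul_C, hA, hB, one_mul] at h4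
  rw [h3, ← hkv, ← h4]; simp

theorem ev_expand {R : Type*} [CommRing R] (x : R) (q : ℕ) (A : ℤ[X]) :
    A.eval₂ (Int.castRingHom R) (x ^ q) = (expand ℤ q A).eval₂ (Int.castRingHom R) x := by
  have := expand_aeval q A x
  simpa only [aeval_def, algebraMap_int_eq] using this.symm

theorem free_mod {E : Diag M} {p r s : ℕ} (hp : p.Prime) (h : D.IsTwist E (p ^ (r + 1)) s)
    (hm : 0 < m) (hs : 0 < s) (hl : D.lk ≠ 0) {Δ g : ℤ[X]} (hΔ : E.IsAlex M Δ)
    (hg : D.IsAlexQ (p ^ (r + 1)) s g) (hS : Stair Δ) (hS' : Stair g) : g = Δ := by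
  have : Fact p.Prime := ⟨hp⟩
  have hq : 0 < p ^ (r + 1) := pow_pos hp.pos _
  have hC : Function.Injective (LaurentPolynomial.C : ZMod p →+* (ZMod p)[T;T⁻¹]) :=
    RingHom.injective _
  have : CharP (ZMod p)[T;T⁻¹] p := charP_of_injective_ringHom hC p
  obtain ⟨x, hx1⟩ := isUnit_T (R := ZMod p) 1
  have hx : ∀ k : ℤ, tp x k = T k := fun k => by
    have h1 : ∀ n : ℕ, tp x n = T n := fun n => by simp [tp, hx1]
    obtain ⟨n, rfl | rfl⟩ := Int.eq_nat_or_neg k
    · exact h1 n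
    · apply (tp_unit x n).mul_left_cancel
      rw [← tp_add, h1, ← T_add]; simp
  have ne : ∀ c : ℤ, c ≠ 0 → tp x c - 1 ≠ 0 := by
    intro c hc h1
    rw [hx, sub_eq_zero, ← T_zero] at h1
    have := congrArg LaurentPolynomial.degree h1
    rw [degree_T, degree_T] at this
    exact hc (by exact_mod_cast this)
  have ha : ∀ Q : ℤ[X], Q.eval₂ (Int.castRingHom _) (x : (ZMod p)[T;T⁻¹]) =
      toLaurent (Q.map (Int.castRingHom (ZMod p))) := by
    intro Q
    induction Q using Polynomial.induction_on' with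
    | add a b ha hb => simp [ha, hb, eval₂_add]
    | monomial k a =>
      rw [eval₂_monomial, Polynomial.map_monomial, ← C_mul_X_pow_eq_monomial]
      simp [hx1]
  have hb : Δ.eval₂ (Int.castRingHom _) ((x : (ZMod p)[T;T⁻¹]) ^ p ^ (r + 1)) =
      Δ.eval₂ (Int.castRingHom _) (x : (ZMod p)[T;T⁻¹]) ^ p ^ (r + 1) := by
    rw [ev_expand, ha, ha, map_expand, expand_pp, map_pow]
  have h1 := (D.isAlexQ_all hg _ x).pow_pow (n := p ^ (r + 1))
  have h2 := D.cover_formula h hq hm hs hl hΔ _ x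
  have h3 := D.det_cover_p p r _ LaurentPolynomial.C x (p ^ (r + 1) : ℕ) (-(s * D.lk))
  rw [zpow_natCast] at h3
  simp only [aeval_def, algebraMap_int_eq] at h1 h2
  have fr : ∀ y : (ZMod p)[T;T⁻¹], y ^ p ^ (r + 1) - 1 = (y - 1) ^ p ^ (r + 1) := fun y => by
    rw [sub_pow_char_pow, one_pow]
  rw [h3, hb, fr, fr, fr, ← mul_pow] at h2
  have h4 := h1.symm.trans h2
  rw [mul_pow, mul_pow] at h4
  have h5 := (h4.of_mul_right (Associated.refl _) (pow_ne_zero _ (ne _ (neg_ne_zero.2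
    (mul_ne_zero (by exact_mod_cast hs.ne') hl))))).of_mul_right (Associated.refl _)
    (pow_ne_zero _ (ne _ hl))
  rw [ha, ha, ← map_pow, ← map_pow] at h5
  have c0 : ∀ A : ℤ[X], A.coeff 0 = 1 →
      (A.map (Int.castRingHom (ZMod p)) ^ p ^ (r + 1)).coeff 0 = 1 := fun A hA => by
    rw [coeff_zero_eq_eval_zero, eval_pow, ← coeff_zero_eq_eval_zero, coeff_map, hA, map_one,
      one_pow]
  have h6 := eq_of_assoc (c0 _ hS'.1) (c0 _ hS.1) h5
  refine stair_eq hp hS' hS (sub_eq_zero.1 ((pow_eq_zero_iff hq.ne').1 ?_))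
  rw [sub_pow_char_pow, h6, sub_self]

end Pool.Agent.P.MP_8a22ed_gt.Diag
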