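import Pool.Agent.P.MP_8a22ed_gt.Stokes

/-! The twisted Alexander matrices, their kernels and determinants. -/

set_option linter.unusedSimpArgs false

namespace Pool.Agent.P.MP_8a22ed_gt

open Finset Matrix

variable {R : Type*} [CommRing R]

/-- Integer powers of a unit. -/
def tp (t : Rˣ) (n : ℤ) : R := ((t ^ n : Rˣ) : R)

theorem tp_add (t : Rˣ) (a b : ℤ) : tp t (a + b) = tp t a * tp t b := by
  simp [tp, _root_.zpow_add]

@[simp] theorem tp_zero (t : Rˣ) : tp t 0 = 1 := by simp [tp]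

@[simp] theorem tp_one_left (n : ℤ) : tp (1 : Rˣ) n = 1 := by simp [tp]

theorem tp_one (t : Rˣ) : tp t 1 = t := by simp [tp]

theorem tp_unit (t : Rˣ) (n : ℤ) : IsUnit (tp t n) := Units.isUnit _

theorem tp_map {S : Type*} [CommRing S] (ψ : R →+* S) (t : Rˣ) (t' : Sˣ) (h : ψ t = t')
    (n : ℤ) : ψ (tp t n) = tp t' n := by
  have : Units.map (ψ : R →* S) t = t' := Units.ext h
  rw [← this]
  simp only [tp]
  rw [← map_zpow]; rfl

theorem adj_rel {ι : Type*} [Fintype ι] [DecidableEq ι] (A : Matrix ι ι R) (v : ι → R)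
    (hv : v ᵥ* A = 0) (r0 : ι) (hu : IsUnit (v r0)) (s r : ι) :
    v r0 * A.adjugate s r = v r * A.adjugate s r0 := by
  set b : ι → R := v r0 • Pi.single r 1 - v r • Pi.single r0 1 with hb
  have h1 : v ᵥ* A.updateCol s b = 0 := by
    funext y
    by_cases hy : y = s
    · subst hy
      have : (v ᵥ* A.updateCol y b) y = v ⬝ᵥ b := by simp [vecMul, dotProduct]
      rw [this, hb]; simp; ring
    · have := congrFun hv y
      simpa [vecMul, dotProduct, hy] using this
  have h2 : (A.updateCol s b).det = 0 := by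
    have h3 : v ᵥ* (A.updateCol s b * (A.updateCol s b).adjugate) = 0 := by
      rw [← vecMul_vecMul, h1, zero_vecMul]
    rw [mul_adjugate] at h3
    have h4 := congrFun h3 r0
    simp only [vecMul_smul, vecMul_one, Pi.smul_apply, smul_eq_mul, Pi.zero_apply] at h4
    exact (hu.mul_left_eq_zero).1 h4
  rw [← cramer_apply, cramer_eq_adjugate_mulVec, hb] at h2
  simp only [mulVec_sub, mulVec_smul, mulVec_single_one, Pi.sub_apply, Pi.smul_apply,
    smul_eq_mul, col_apply] at h2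
  exact sub_eq_zero.1 h2

theorem adj_col {ι : Type*} [Fintype ι] [DecidableEq ι] (A : Matrix ι ι R)
    (hv : A *ᵥ 1 = 0) (s s' r : ι) : A.adjugate s r = A.adjugate s' r := by
  have := adj_rel Aᵀ 1 (by rw [vecMul_transpose, hv]) s' isUnit_one r s
  simpa [← adjugate_transpose] using this

namespace Diag

variable {m : ℕ} (D : Diag m)

theorem e_nxt (s : ℤ × ℤ) (h : D.e s.1 s.2 ≠ 0) : D.e (D.nxt s).1 (D.nxt s).2 ≠ 0 := by
  obtain ⟨j, i⟩ := s
  have o1 : ∀ a : ℤ, 2 * a + 1 - a = a + 1 := fun a => by ring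
  have o2 : ∀ a : ℤ, 2 * a + 1 - (a + 1) = a := fun a => by ring
  rcases D.e_val j i with u | u | u
  · by_cases h1 : i = D.k j
    · subst h1
      rcases hk : D.kind j with _ | _ | _ | _
      · have := D.cup j hk; omega
      · have := D.cap j hk; simp [nxt, On, lay, oth, u, hk, o1]; omega
      · have := D.crs j (Or.inl hk); simp [nxt, On, lay, oth, u, hk, o1]; omega
      · have := D.crs j (Or.inr hk); simp [nxt, On, lay, oth, u, hk, o1]; omega
    · by_cases h2 : i = D.k j + 1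
      · subst h2
        rcases hk : D.kind j with _ | _ | _ | _
        · have := D.cup j hk; omega
        · have := D.cap j hk; simp [nxt, On, lay, oth, u, hk, o2]; omega
        · have := D.crs j (Or.inl hk); simp [nxt, On, lay, oth, u, hk, o2]; omega
        · have := D.crs j (Or.inr hk); simp [nxt, On, lay, oth, u, hk, o2]; omega
      · have := D.off j i h1 h2
        simp [nxt, On, lay, u, h1, h2]; omega
  · obtain ⟨j, rfl⟩ : ∃ a, j = a + 1 := ⟨j - 1, by ring⟩
    by_cases h1 : i = D.k j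
    · subst h1
      rcases hk : D.kind j with _ | _ | _ | _
      · have := D.cup j hk; simp [nxt, On, lay, oth, u, hk, o1]; omega
      · have := D.cap j hk; omega
      · have := D.crs j (Or.inl hk); simp [nxt, On, lay, oth, u, hk, o1]; omega
      · have := D.crs j (Or.inr hk); simp [nxt, On, lay, oth, u, hk, o1]; omega
    · by_cases h2 : i = D.k j + 1
      · subst h2
        rcases hk : D.kind j with _ | _ | _ | _
        · have := D.cup j hk; simp [nxt, On, lay, oth, u, hk, o2]; omega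
        · have := D.cap j hk; omega
        · have := D.crs j (Or.inl hk); simp [nxt, On, lay, oth, u, hk, o2]; omega
        · have := D.crs j (Or.inr hk); simp [nxt, On, lay, oth, u, hk, o2]; omega
      · have := D.off j i h1 h2
        simp [nxt, On, lay, u, h1, h2]; omega
  · exact absurd u h

theorem nxt_lev (s : ℤ × ℤ) : s.1 - 1 ≤ (D.nxt s).1 ∧ (D.nxt s).1 ≤ s.1 + 1 := by
  have := D.e_val s.1 s.2
  unfold nxt
  split_ifs <;> simp only <;> omega

theorem sg_zero (s : ℤ × ℤ) (h : D.e s.1 (D.oth s) = 0) : D.sg s = 0 := by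
  simp [sg, h]

/-- The Fox relation at `s` applied to `F`. -/
def Op (t : Rˣ) (F : ℤ × ℤ → R) (s : ℤ × ℤ) : R :=
  F (D.nxt s) - tp t (D.sg s) * F s - (1 - tp t (D.sg s)) * F (s.1, D.oth s)

theorem row_eq (t : Rˣ) (F : ℤ × ℤ → R) (s : ℤ × ℤ) :
    D.row (tp t) F s = tp t (D.vI s) * D.Op t F s := by
  simp only [row, Op, tp_add]; ring

theorem Op_congr (t : Rˣ) (F G : ℤ × ℤ → R) (h : ∀ x, D.e x.1 x.2 ≠ 0 → F x = G x)
    (s : ℤ × ℤ) (hs : D.e s.1 s.2 ≠ 0) : D.Op t F s = D.Op t G s := by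
  unfold Op
  rw [h _ (D.e_nxt s hs), h s hs]
  by_cases ho : D.e s.1 (D.oth s) = 0
  · simp [D.sg_zero s ho]
  · rw [h (s.1, D.oth s) ho]

/-- Twisted indicator of a segment. -/
def indu (M : ℕ) (u : Rˣ) (x : ℤ × ℤ) (y : D.Seg M) : R :=
  if (M : ℤ) ∣ x.1 - (D.pt y).1 ∧ x.2 = (D.pt y).2 then tp u ((x.1 - (D.pt y).1) / M) else 0

/-- The twisted Alexander matrix. -/
def gm (M : ℕ) (t u : Rˣ) : Matrix (D.Seg M) (D.Seg M) R := fun s y =>
  D.Op t (fun x => D.indu M u x y) (D.pt s)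

theorem pt_e {M : ℕ} (s : D.Seg M) : D.e (D.pt s).1 (D.pt s).2 ≠ 0 := s.2

theorem pt_lt {M : ℕ} (s : D.Seg M) : 0 ≤ (D.pt s).1 ∧ (D.pt s).1 < M := by
  have := s.1.1.2
  simp only [pt]; omega

theorem expand_q {M z : ℕ} (hM : M = z * m) (h0 : 0 < M) (u : Rˣ) (F : ℤ × ℤ → R)
    (hF : ∀ a j i : ℤ, F (j + a * M, i) = tp u a * F (j, i)) (x : ℤ × ℤ)
    (hx : D.e x.1 x.2 ≠ 0) : ∑ y, D.indu M u x y * F (D.pt y) = F x := by
  obtain ⟨j, i⟩ := x
  have hM0 : (0 : ℤ) < M := by exact_mod_cast h0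
  have a1 : 0 ≤ j % M := Int.emod_nonneg _ hM0.ne'
  have a2 : j % M < M := Int.emod_lt_of_pos _ hM0
  have a3 : j % M + j / M * M = j := Int.emod_add_ediv_mul j M
  have b1 : 0 ≤ i ∧ i < D.N := by
    by_contra hc
    exact hx (D.e_out j i (by omega))
  have he : D.e (j % M) i ≠ 0 := by
    have := D.e_sh (j / M * z) (j % M) i
    rw [mul_assoc, ← Nat.cast_mul, ← hM, a3] at this
    rw [← this]; exact hx
  let y0 : D.Seg M := ⟨(⟨(j % M).toNat, by omega⟩, ⟨i.toNat, by omega⟩), by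
    simpa [Int.toNat_of_nonneg a1, Int.toNat_of_nonneg b1.1] using he⟩
  have hy : D.pt y0 = (j % M, i) := by
    simp [pt, y0, Int.toNat_of_nonneg a1, Int.toNat_of_nonneg b1.1]
  rw [sum_eq_single y0]
  · have c : j - j % M = j / M * M := by omega
    rw [indu, hy]
    simp only [c, dvd_mul_left, and_self, if_true]
    rw [Int.mul_ediv_cancel _ hM0.ne', ← hF, a3]
  · intro y _ hne
    rw [indu, if_neg, zero_mul]
    rintro ⟨⟨c, hc⟩, h2⟩
    apply hne
    have hl := D.pt_lt y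
    have h3 : (D.pt y).1 = j % M := by
      have : j = (D.pt y).1 + M * c := by simp only at hc; omega
      rw [this, Int.add_mul_emod_self_left, Int.emod_eq_of_lt hl.1 hl.2]
    have h4 : D.pt y = D.pt y0 := by rw [hy]; exact Prod.ext h3 h2.symm
    simp only [pt, Prod.mk.injEq, Nat.cast_inj] at h4
    exact Subtype.ext (Prod.ext (Fin.ext h4.1) (Fin.ext h4.2))
  · simp

theorem gm_mulVec {M z : ℕ} (hM : M = z * m) (t u : Rˣ) (F : ℤ × ℤ → R)
    (hF : ∀ a j i : ℤ, F (j + a * M, i) = tp u a * F (j, i)) (s : D.Seg M) :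
    (D.gm M t u *ᵥ fun y => F (D.pt y)) s = D.Op t F (D.pt s) := by
  have h0 : 0 < M := Fin.pos s.1.1
  rw [← D.Op_congr t _ _ (D.expand_q hM h0 u F hF) _ (D.pt_e s)]
  simp only [mulVec, dotProduct, gm, Op, mul_sum, ← sum_sub_distrib]
  exact sum_congr rfl fun y _ => by ring

theorem indu_sh {M : ℕ} (h0 : 0 < M) (u : Rˣ) (y : D.Seg M) (a j i : ℤ) :
    D.indu M u (j + a * M, i) y = tp u a * D.indu M u (j, i) y := by
  have hM0 : (M : ℤ) ≠ 0 := by exact_mod_cast h0.ne'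
  have e1 : j + a * M - (D.pt y).1 = j - (D.pt y).1 + a * M := by ring
  simp only [indu, e1]
  rw [Int.add_mul_ediv_right _ _ hM0, tp_add]
  simp only [dvd_add_left (dvd_mul_left (M : ℤ) a)]
  split_ifs <;> ring

theorem sum_seg (M : ℕ) (f : ℤ × ℤ → R) : ∑ s : D.Seg M, f (D.pt s) =
    ∑ j ∈ range M, ∑ i ∈ range D.N, if D.e j i ≠ 0 then f (j, i) else 0 := by
  rw [← Fin.sum_univ_eq_sum_range
    (fun j : ℕ => ∑ i ∈ range D.N, if D.e j i ≠ 0 then f (j, i) else 0)]
  simp only [← Fin.sum_univ_eq_sum_range (fun i : ℕ => if D.e _ i ≠ 0 then f (_, i) else 0)]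
  rw [← Fintype.sum_prod_type' (f := fun (j : Fin M) (i : Fin D.N) =>
    if D.e (j : ℕ) (i : ℕ) ≠ 0 then f ((j : ℕ), (i : ℕ)) else 0), ← sum_filter]
  exact (sum_subtype _ (by simp) (fun s : Fin M × Fin D.N => f ((s.1 : ℕ), (s.2 : ℕ)))).symm

theorem stokes' {M z : ℕ} (hM : M = z * m) (t : Rˣ) (F : ℤ × ℤ → R) (c : R)
    (hF : ∀ j i, F (j + M, i) = F (j, i) + c) :
    ∑ s : D.Seg M, tp t (D.vI (D.pt s)) * D.Op t F (D.pt s) = c * D.gs (tp t) := by
  simp only [← row_eq]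
  rw [D.sum_seg M (D.row (tp t) F)]
  subst hM
  exact D.stokes (tp t) F z c (by simpa using hF)

theorem gm_left {M z : ℕ} (hM : M = z * m) (t : Rˣ) :
    (fun s => tp t (D.vI (D.pt s))) ᵥ* D.gm M t 1 = 0 := by
  funext y
  have h0 : 0 < M := Fin.pos y.1.1
  have := D.stokes' hM t (fun x => D.indu M 1 x y) 0 (fun j i => by
    have := D.indu_sh h0 (1 : Rˣ) y 1 j i
    simpa using this)
  simpa [vecMul, dotProduct, gm] using this

theorem gm_one {M z : ℕ} (hM : M = z * m) (t u : Rˣ) (s : D.Seg M) :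
    (D.gm M t u *ᵥ 1) s = tp u ((D.nxt (D.pt s)).1 / M) - 1 := by
  have h0 : 0 < M := Fin.pos s.1.1
  have hM0 : (M : ℤ) ≠ 0 := by exact_mod_cast h0.ne'
  have hz : ∀ y : D.Seg M, (D.pt y).1 / M = 0 := fun y =>
    Int.ediv_eq_zero_of_lt (D.pt_lt y).1 (D.pt_lt y).2
  have := D.gm_mulVec hM t u (fun x => tp u (x.1 / M)) (fun a j i => by
    simp only; rw [Int.add_mul_ediv_right _ _ hM0, tp_add, mul_comm]) s
  simp only [hz, tp_zero, Op] at this
  rw [show (1 : D.Seg M → R) = fun _ => 1 from rfl, this]; ring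

theorem gm_right {M z : ℕ} (hM : M = z * m) (t : Rˣ) : D.gm M t 1 *ᵥ 1 = 0 := by
  funext s
  rw [D.gm_one hM]; simp

theorem adj_all {M z : ℕ} (hM : M = z * m) (t : Rˣ) (s r s' r' : D.Seg M) :
    (D.gm M t 1).adjugate s r =
      tp t (D.vI (D.pt r) - D.vI (D.pt r')) * (D.gm M t 1).adjugate s' r' := by
  have h := adj_rel _ _ (D.gm_left hM t) r' (tp_unit _ _) s r
  rw [adj_col _ (D.gm_right hM t) s s' r'] at h
  apply (tp_unit t (D.vI (D.pt r'))).mul_left_cancel
  rw [h, ← mul_assoc, ← tp_add]; congr 2; ring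

end Diag

end Pool.Agent.P.MP_8a22ed_gt
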