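import Pool.Agent.P.MP_8a22ed_gt.Fourier

/-! The two conditions of Murasugi for the diagrams of `Defs`. -/

set_option linter.unusedSimpArgs false

namespace Pool.Agent.P.MP_8a22ed_gt.Diag

open Finset Matrix Polynomial LaurentPolynomial

variable {m : ℕ} (D : Diag m)

theorem alex_map {R : Type*} [CommRing R] (t : Rˣ) (M : ℕ) :
    (D.alex M).map (LaurentPolynomial.eval₂ (Int.castRingHom R) t) = D.gm M t 1 := by
  ext s y
  simp only [Matrix.map_apply, alex, gm, Op, ind, indu, map_sub, map_mul, map_one, eval₂_T,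
    apply_ite (LaurentPolynomial.eval₂ (Int.castRingHom R) t), map_zero, tp_one_left]
  rfl

theorem isAlex_all {M z : ℕ} (hM : M = z * m) {Δ : ℤ[X]} (h : D.IsAlex M Δ) (s r : D.Seg M) :
    ∃ n ε : ℤ, (ε = 1 ∨ ε = -1) ∧ ∀ (R : Type) [CommRing R] (t : Rˣ),
      (D.gm M t 1).adjugate s r = (ε : R) * tp t n * aeval (t : R) Δ := by
  obtain ⟨s', r', n, ε, hε, h⟩ := h
  refine ⟨D.vI (D.pt r) - D.vI (D.pt r') + n, ε, hε, fun R _ t => ?_⟩
  have h2 := congrArg (LaurentPolynomial.eval₂ (Int.castRingHom R) t) h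
  have h3 := congrFun (congrFun (RingHom.map_adjugate
    (LaurentPolynomial.eval₂ (Int.castRingHom R) t) (D.alex M)) s') r'
  simp only [RingHom.mapMatrix_apply, Matrix.map_apply, alex_map] at h3
  rw [h3, map_mul, map_mul, eval₂_T, eval₂_toLaurent, map_intCast] at h2
  rw [D.adj_all hM t s r s' r', h2, tp_add, aeval_def]
  simp only [tp, algebraMap_int_eq]; ring

theorem mura2 (n : ℕ) {Δ Δ' : ℤ[X]} (h : D.IsAlex ((n + 1) * m) Δ) (h' : D.IsAlex m Δ')
    (x : ℂ) (hx : x ≠ 0) (h0 : aeval x Δ' = 0) : aeval x Δ = 0 := by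
  obtain ⟨y, -⟩ := id h'
  obtain ⟨a, ε, hε, e1⟩ := D.isAlex_all rfl h (D.phi (n + 1) (y, 0)) (D.phi (n + 1) (y, 0))
  obtain ⟨b, δ, hδ, e2⟩ := D.isAlex_all (one_mul m).symm h' y y
  have hz := Complex.isPrimitiveRoot_exp (n + 1) (Nat.succ_ne_zero n)
  have hf := D.fourier n (Units.mk0 x hx) (Units.mk0 _ (hz.ne_zero (Nat.succ_ne_zero n))) hz
    (Nat.cast_ne_zero.2 (Nat.succ_ne_zero n)) y
  rw [e1, e2, Units.val_mk0, h0, mul_zero, zero_mul] at hf
  have hε' : (ε : ℂ) ≠ 0 := by rcases hε with rfl | rfl <;> simp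
  exact (mul_eq_zero.1 hf).resolve_left (mul_ne_zero hε' (tp_unit _ _).ne_zero)

theorem mura1_ring (p r n : ℕ) [Fact p.Prime] (hn : n + 1 = p ^ (r + 1)) {Δ Δ' : ℤ[X]}
    (h : D.IsAlex ((n + 1) * m) Δ) (h' : D.IsAlex m Δ') (S : Type) [CommRing S]
    (f : ZMod p →+* S) (t : Sˣ) : ∃ c ε : ℤ, (ε = 1 ∨ ε = -1) ∧
      ((t : S) - 1) ^ n * aeval (t : S) Δ =
        ε * tp t c * aeval (t : S) Δ' ^ (n + 1) * ((t : S) ^ D.lk.natAbs - 1) ^ n := by
  obtain ⟨y, -⟩ := id h'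
  obtain ⟨a, ε, hε, e1⟩ := D.isAlex_all rfl h (D.phi (n + 1) (y, 0)) (D.phi (n + 1) (y, 0))
  obtain ⟨b, δ, hδ, e2⟩ := D.isAlex_all (one_mul m).symm h' y y
  let O := AdjoinRoot (cyclotomic (n + 1) ℤ)
  have : IsDomain O := AdjoinRoot.isDomain_of_prime (cyclotomic.irreducible n.succ_pos).prime
  have : CharZero O := charZero_of_injective_ringHom (f := AdjoinRoot.of _)
    (AdjoinRoot.of.injective_of_degree_ne_zero (degree_cyclotomic_pos (n + 1) ℤ n.succ_pos).ne')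
  have hz0 : IsPrimitiveRoot (AdjoinRoot.root (cyclotomic (n + 1) ℤ) : O) (n + 1) := by
    refine (isRoot_cyclotomic_iff_charZero (R := O) n.succ_pos).1 ?_
    have := AdjoinRoot.isRoot_root (cyclotomic (n + 1) ℤ)
    rwa [map_cyclotomic] at this
  have hC : Function.Injective (LaurentPolynomial.C : O →+* O[T;T⁻¹]) := fun a b hab => by
    have := congrArg (LaurentPolynomial.eval₂ (RingHom.id O) 1) hab
    simpa only [LaurentPolynomial.eval₂_C, RingHom.id_apply] using this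
  have : CharZero O[T;T⁻¹] := charZero_of_injective_ringHom hC
  have hz := hz0.map_of_injective hC
  have hf := D.fourier n (isUnit_T (R := O) 1).unit (hz.isUnit n.succ_ne_zero).unit hz
    (Nat.cast_ne_zero.2 (Nat.succ_ne_zero n)) y
  let g : O →+* S := AdjoinRoot.lift (Int.castRingHom S) 1 (by
    rw [eval₂_at_one, hn, eval_one_cyclotomic_prime_pow, map_natCast, ← map_natCast f,
      ZMod.natCast_self, map_zero])
  let ψ : O[T;T⁻¹] →+* S := LaurentPolynomial.eval₂ g t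
  have ht : ψ (isUnit_T (R := O) 1).unit = t := by simp [ψ]
  have hu : ∀ k : ℕ, ψ (((hz.isUnit n.succ_ne_zero).unit ^ k : O[T;T⁻¹]ˣ)) = (1 : Sˣ) := by
    intro k
    have : g (AdjoinRoot.root _) = 1 := AdjoinRoot.lift_root _
    simp [ψ, LaurentPolynomial.eval₂_C, this]
  have hadj : ∀ (M : ℕ) (s r : D.Seg M),
      ψ ((D.gm M (isUnit_T (R := O) 1).unit 1).adjugate s r) = (D.gm M t 1).adjugate s r := by
    intro M s r
    have := congrFun (congrFun (RingHom.map_adjugate ψ (D.gm M (isUnit_T (R := O) 1).unit 1)) s) r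
    rwa [RingHom.mapMatrix_apply, RingHom.mapMatrix_apply, D.gm_map ψ _ 1 t 1 ht (by simp),
      Matrix.map_apply] at this
  have E := congrArg ψ hf
  rw [map_mul, map_prod, hadj, hadj, e1, e2] at E
  simp only [D.Dp_map ψ _ _ t 1 ht (hu _), prod_const, card_univ, Fintype.card_fin] at E
  have F := D.Dp_one t y y
  rw [e2] at F
  have G := D.gs_tel (tp t) t (fun k => by rw [tp_add, tp_one])
  rw [tp_zero] at G
  obtain ⟨c0, η, hη, L⟩ : ∃ c0 η : ℤ, (η = 1 ∨ η = -1) ∧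
      tp t D.lk - 1 = η * tp t c0 * ((t : S) ^ D.lk.natAbs - 1) := by
    have hp : tp t (D.lk.natAbs : ℕ) = (t : S) ^ D.lk.natAbs := by simp [tp, -Nat.cast_natAbs]
    by_cases hl : 0 ≤ D.lk
    · refine ⟨0, 1, Or.inl rfl, ?_⟩
      rw [← hp, Int.natAbs_of_nonneg hl]; simp
    · refine ⟨D.lk, -1, Or.inr rfl, ?_⟩
      have := tp_add t D.lk (D.lk.natAbs : ℕ)
      rw [show D.lk + (D.lk.natAbs : ℕ) = 0 by omega, tp_zero, hp] at this
      push_cast
      linear_combination -this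
  have i1 := tp_add t (-a) a
  have i2 := tp_add t (-D.vI (D.pt y)) (D.vI (D.pt y))
  rw [neg_add_cancel, tp_zero] at i1 i2
  have i3 : (ε : S) * ε = 1 := by rcases hε with rfl | rfl <;> simp
  have K : ((t : S) - 1) * D.Dp t 1 y = ((-δ * η : ℤ) : S) * tp t (-D.vI (D.pt y) + b + c0) *
      (aeval (t : S) Δ' * ((t : S) ^ D.lk.natAbs - 1)) := by
    rw [tp_add, tp_add]; push_cast
    linear_combination (((t : S) - 1) * D.Dp t 1 y) * i2 +
      (tp t (-D.vI (D.pt y)) * ((t : S) - 1)) * F -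
      (tp t (-D.vI (D.pt y)) * δ * tp t b * aeval (t : S) Δ') * (G.trans L)
  have tpn : ∀ c : ℤ, tp t (n * c) = tp t c ^ n := fun c => by
    simp only [tp]; rw [mul_comm, _root_.zpow_mul, zpow_natCast, Units.val_pow_eq_pow_val]
  refine ⟨-a + b + n * (-D.vI (D.pt y) + b + c0), ε * δ * (-δ * η) ^ n, ?_, ?_⟩
  · refine Int.isUnit_iff.1 (((Int.isUnit_iff.2 hε).mul (Int.isUnit_iff.2 hδ)).mul
      (((Int.isUnit_iff.2 hδ).neg.mul (Int.isUnit_iff.2 hη)).pow n))
  · have K2 := congrArg (· ^ n) K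
    simp only [mul_pow] at K2
    rw [tp_add, tp_add, tpn, Int.cast_mul, Int.cast_mul, Int.cast_pow, pow_succ]
    linear_combination (((t : S) - 1) ^ n * aeval (t : S) Δ) * i1 -
      (((t : S) - 1) ^ n * aeval (t : S) Δ * tp t (-a) * tp t a) * i3 +
      (((t : S) - 1) ^ n * ε * tp t (-a)) * E +
      (ε * tp t (-a) * δ * tp t b * aeval (t : S) Δ') * K2

theorem mura1 (p r n : ℕ) [Fact p.Prime] (hn : n + 1 = p ^ (r + 1)) {Δ Δ' : ℤ[X]}
    (h : D.IsAlex ((n + 1) * m) Δ) (h' : D.IsAlex m Δ') : ∃ (a b : ℕ) (ε : ℤ), (ε = 1 ∨ ε = -1) ∧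
      X ^ a * ((X - 1) ^ n * Δ.map (Int.castRingHom (ZMod p))) = (ε : (ZMod p)[X]) * X ^ b *
        Δ'.map (Int.castRingHom (ZMod p)) ^ (n + 1) * (X ^ D.lk.natAbs - 1) ^ n := by
  obtain ⟨c, ε, hε, H⟩ := D.mura1_ring p r n hn h h' (RatFunc (ZMod p)) RatFunc.C
    (Units.mk0 RatFunc.X RatFunc.X_ne_zero)
  refine ⟨(-c).toNat, c.toNat, ε, hε, ?_⟩
  apply RatFunc.algebraMap_injective (ZMod p)
  have ha : ∀ Q : ℤ[X], algebraMap (ZMod p)[X] (RatFunc (ZMod p))
      (Q.map (Int.castRingHom (ZMod p))) =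
        Q.eval₂ (Int.castRingHom _) (RatFunc.X : RatFunc (ZMod p)) := by
    intro Q
    induction Q using Polynomial.induction_on' with
    | add a b ha hb => simp [ha, hb, eval₂_add]
    | monomial k a =>
      rw [eval₂_monomial, Polynomial.map_monomial, ← C_mul_X_pow_eq_monomial]
      simp
  have hx : ∀ k : ℕ, (RatFunc.X : RatFunc (ZMod p)) ^ k =
      tp (Units.mk0 RatFunc.X RatFunc.X_ne_zero) k := fun k => by simp [tp]
  have hc : (RatFunc.X : RatFunc (ZMod p)) ^ c.toNat = RatFunc.X ^ (-c).toNat *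
      tp (Units.mk0 RatFunc.X RatFunc.X_ne_zero) c := by
    rw [hx, hx, ← tp_add]; congr 1; omega
  simp only [map_mul, map_pow, map_sub, map_one, map_intCast, ha, RatFunc.algebraMap_X]
  simp only [Units.val_mk0, aeval_def, algebraMap_int_eq] at H
  rw [H, hc]; ring

end Pool.Agent.P.MP_8a22ed_gt.Diag
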