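import Pool.Agent.P.MP_8a22ed_gt.Defs

/-! The Alexander numbering and the summation identity for one layer. -/

set_option linter.unusedSimpArgs false

namespace Pool.Agent.P.MP_8a22ed_gt.Diag

open Finset

variable {m : ℕ} (D : Diag m)

/-- Signed number of strands to the left of track `i` on level `j`. -/
def Pre (j i : ℤ) : ℤ := ∑ a ∈ range i.toNat, D.e j a

theorem P_succ (j i : ℤ) : D.Pre j (i + 1) = D.Pre j i + D.e j i := by
  unfold Pre
  by_cases h : 0 ≤ i
  · obtain ⟨n, rfl⟩ := Int.eq_ofNat_of_zero_le h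
    have : ((n : ℤ) + 1).toNat = n + 1 := by omega
    rw [this, sum_range_succ]; simp
  · have h1 : (i + 1).toNat = 0 := by omega
    have h2 : i.toNat = 0 := by omega
    rw [h1, h2, D.e_out j i (Or.inl (by omega))]; simp

theorem cons (j : ℤ) : D.e (j + 1) (D.k j) + D.e (j + 1) (D.k j + 1) =
    D.e j (D.k j) + D.e j (D.k j + 1) := by
  rcases h : D.kind j with _ | _ | _ | _
  · obtain ⟨a, b, -, d⟩ := D.cup j h; omega
  · obtain ⟨a, b, -, d⟩ := D.cap j h; omega
  · obtain ⟨a, b⟩ := D.crs j (Or.inl h); omega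
  · obtain ⟨a, b⟩ := D.crs j (Or.inr h); omega

theorem P_lev_nat (j : ℤ) (n : ℕ) : D.Pre (j + 1) n = D.Pre j n +
    if (n : ℤ) = D.k j + 1 then D.e (j + 1) (D.k j) - D.e j (D.k j) else 0 := by
  induction n with
  | zero =>
    split_ifs with h
    · rw [D.e_out (j + 1) (D.k j) (Or.inl (by omega)), D.e_out j (D.k j) (Or.inl (by omega))]
      simp [Pre]
    · simp [Pre]
  | succ n ih =>
    push_cast
    rw [P_succ, P_succ, ih]
    by_cases h1 : (n : ℤ) = D.k j
    · rw [if_neg (by omega), if_pos (by omega), h1]; ring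
    · by_cases h2 : (n : ℤ) = D.k j + 1
      · rw [if_pos h2, if_neg (by omega), h2]; have := D.cons j; omega
      · rw [if_neg h2, if_neg (by omega), D.off j n h1 h2]; ring

theorem P_lev (j i : ℤ) (h : i ≠ D.k j + 1) : D.Pre (j + 1) i = D.Pre j i := by
  by_cases h0 : 0 ≤ i
  · obtain ⟨n, rfl⟩ := Int.eq_ofNat_of_zero_le h0
    rw [P_lev_nat, if_neg h, add_zero]
  · have h2 : i.toNat = 0 := by omega
    simp [Pre, h2]

/-- The Alexander number of the strand at `s`. -/
def I (s : ℤ × ℤ) : ℤ := if D.e s.1 s.2 = 1 then D.Pre s.1 s.2 else D.Pre s.1 s.2 - 1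

/-- The exponent of the weight of the row of `s`. -/
def vI (s : ℤ × ℤ) : ℤ :=
  if D.On s ∧ ((D.kind (D.lay s) = Kind.over ∧ D.e s.1 s.2 * (D.oth s - s.2) = 1) ∨
      (D.kind (D.lay s) = Kind.under ∧ D.e s.1 s.2 * (D.oth s - s.2) = -1)) ∧
      D.e s.1 (D.oth s) = -D.e s.1 s.2
  then D.I s else D.I (D.nxt s)

variable {R : Type*} [CommRing R]

/-- The weighted row of `s` applied to `F`. -/
def row (τ : ℤ → R) (F : ℤ × ℤ → R) (s : ℤ × ℤ) : R :=
  τ (D.vI s) * F (D.nxt s) - τ (D.vI s + D.sg s) * F s -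
    (τ (D.vI s) - τ (D.vI s + D.sg s)) * F (s.1, D.oth s)

/-- The contribution of track `i` to the level sum. -/
def lv (τ : ℤ → R) (F : ℤ × ℤ → R) (j i : ℤ) : R := (D.e j i : R) * τ (D.I (j, i)) * F (j, i)

/-- The defect of track `i` in layer `j`. -/
def df (τ : ℤ → R) (F : ℤ × ℤ → R) (j i : ℤ) : R :=
  (if D.e j i = 1 then D.row τ F (j, i) else 0) +
    (if D.e (j + 1) i = -1 then D.row τ F (j + 1, i) else 0) -
    (D.lv τ F (j + 1) i - D.lv τ F j i)

theorem df_off (τ : ℤ → R) (F : ℤ × ℤ → R) (j i : ℤ) (h1 : i ≠ D.k j) (h2 : i ≠ D.k j + 1) :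
    D.df τ F j i = 0 := by
  have he := D.off j i h1 h2
  have hp := D.P_lev j i h2
  rcases D.e_val j i with h | h | h
  · simp [df, row, lv, vI, nxt, sg, On, lay, I, he, hp, h, h1, h2]
  · simp [df, row, lv, vI, nxt, sg, On, lay, I, he, hp, h, h1, h2]
    ring
  · simp [df, lv, he, h]

theorem df_out (τ : ℤ → R) (F : ℤ × ℤ → R) (j i : ℤ) (h : i < 0 ∨ (D.N : ℤ) ≤ i) :
    D.df τ F j i = 0 := by
  simp [df, lv, D.e_out j i h, D.e_out (j + 1) i h]

theorem df_on (τ : ℤ → R) (F : ℤ × ℤ → R) (j : ℤ) :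
    D.df τ F j (D.k j) + D.df τ F j (D.k j + 1) = 0 := by
  have p0 := D.P_lev j (D.k j) (by omega)
  have p1 := D.P_succ j (D.k j)
  have p2 := D.P_succ (j + 1) (D.k j)
  have o1 : 2 * D.k j + 1 - D.k j = D.k j + 1 := by ring
  have o2 : 2 * D.k j + 1 - (D.k j + 1) = D.k j := by ring
  rcases h : D.kind j with _ | _ | _ | _
  · obtain ⟨a, b, c, d⟩ := D.cup j h
    rcases D.e_val (j + 1) (D.k j) with u | u | u
    · simp [df, row, lv, vI, nxt, sg, On, lay, oth, I, h, a, b, d, u, p0, p1, p2, o1, o2]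
    · simp [df, row, lv, vI, nxt, sg, On, lay, oth, I, h, a, b, d, u, p0, p1, p2, o1, o2]
      ring_nf
    · exact absurd u c
  · obtain ⟨a, b, c, d⟩ := D.cap j h
    rcases D.e_val j (D.k j) with u | u | u
    · simp [df, row, lv, vI, nxt, sg, On, lay, oth, I, h, a, b, d, u, p0, p1, p2, o1, o2]
    · simp [df, row, lv, vI, nxt, sg, On, lay, oth, I, h, a, b, d, u, p0, p1, p2, o1, o2]
      ring_nf
    · exact absurd u c
  · obtain ⟨a, b⟩ := D.crs j (Or.inl h)
    rcases D.e_val j (D.k j) with u | u | u <;> rcases D.e_val j (D.k j + 1) with w | w | w <;>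
      simp [df, row, lv, vI, nxt, sg, On, lay, oth, I, h, a, b, u, w, p0, p1, p2, o1, o2] <;>
      ring_nf
  · obtain ⟨a, b⟩ := D.crs j (Or.inr h)
    rcases D.e_val j (D.k j) with u | u | u <;> rcases D.e_val j (D.k j + 1) with w | w | w <;>
      simp [df, row, lv, vI, nxt, sg, On, lay, oth, I, h, a, b, u, w, p0, p1, p2, o1, o2] <;>
      ring_nf

theorem sum_df (τ : ℤ → R) (F : ℤ × ℤ → R) (j : ℤ) :
    ∑ i ∈ range D.N, D.df τ F j i = 0 := by
  classical
  have h1 : ∑ i ∈ range D.N, D.df τ F j i =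
      ∑ i ∈ (range D.N).image (fun n : ℕ => (n : ℤ)), D.df τ F j i := by
    rw [sum_image (fun a _ b _ h => by exact_mod_cast h)]
  have h2 : ∑ i ∈ (range D.N).image (fun n : ℕ => (n : ℤ)), D.df τ F j i =
      ∑ i ∈ (range D.N).image (fun n : ℕ => (n : ℤ)) ∪ {D.k j, D.k j + 1}, D.df τ F j i := by
    refine sum_subset subset_union_left fun i _ hi => D.df_out τ F j i ?_
    by_contra hc
    apply hi
    refine mem_image.2 ⟨i.toNat, mem_range.2 (by omega), by omega⟩
  have h3 : ∑ i ∈ ({D.k j, D.k j + 1} : Finset ℤ), D.df τ F j i =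
      ∑ i ∈ (range D.N).image (fun n : ℕ => (n : ℤ)) ∪ {D.k j, D.k j + 1}, D.df τ F j i := by
    refine sum_subset subset_union_right fun i _ hi => D.df_off τ F j i ?_ ?_
    · rintro rfl; simp at hi
    · rintro rfl; simp at hi
  rw [h1, h2, ← h3, sum_pair (by omega), df_on]

/-! Invariance under the period. -/

theorem e_sh (z j i : ℤ) : D.e (j + z * m) i = D.e j i :=
  (Function.Periodic.int_mul (f := fun j => D.e j i) (fun j => D.e_per j i) z) j

theorem k_sh (z j : ℤ) : D.k (j + z * m) = D.k j :=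
  (Function.Periodic.int_mul (f := D.k) D.k_per z) j

theorem kind_sh (z j : ℤ) : D.kind (j + z * m) = D.kind j :=
  (Function.Periodic.int_mul (f := D.kind) D.kind_per z) j

theorem lay_sh (z j i : ℤ) : D.lay (j + z * m, i) = D.lay (j, i) + z * m := by
  simp only [lay, e_sh]; split_ifs <;> ring

theorem On_sh (z j i : ℤ) : D.On (j + z * m, i) ↔ D.On (j, i) := by
  simp only [On, lay_sh, k_sh]

theorem oth_sh (z j i : ℤ) : D.oth (j + z * m, i) = D.oth (j, i) := by
  simp only [oth, lay_sh, k_sh]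

theorem sg_sh (z j i : ℤ) : D.sg (j + z * m, i) = D.sg (j, i) := by
  simp only [sg, On_sh, oth_sh, lay_sh, kind_sh, e_sh]

theorem nxt_sh (z j i : ℤ) :
    D.nxt (j + z * m, i) = ((D.nxt (j, i)).1 + z * m, (D.nxt (j, i)).2) := by
  simp only [nxt, On_sh, oth_sh, lay_sh, kind_sh, e_sh]
  split_ifs <;> simp <;> ring

theorem I_sh (z j i : ℤ) : D.I (j + z * m, i) = D.I (j, i) := by
  simp only [I, Pre, e_sh]

theorem vI_sh (z j i : ℤ) : D.vI (j + z * m, i) = D.vI (j, i) := by
  simp only [vI, On_sh, oth_sh, lay_sh, kind_sh, e_sh, nxt_sh, I_sh]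

/-- The level sum of the constant function. -/
def gs (τ : ℤ → R) : R := ∑ i ∈ range D.N, (D.e 0 i : R) * τ (D.I (0, i))

/-- The summation identity over `z` periods. -/
theorem stokes (τ : ℤ → R) (F : ℤ × ℤ → R) (z : ℕ) (c : R)
    (hF : ∀ j i, F (j + (z : ℤ) * m, i) = F (j, i) + c) :
    ∑ j ∈ range (z * m), ∑ i ∈ range D.N,
      (if D.e j i ≠ 0 then D.row τ F (j, i) else 0) = c * D.gs τ := by
  set U : ℤ → R := fun j => ∑ i ∈ range D.N, (if D.e j i = 1 then D.row τ F (j, i) else 0)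
  set W : ℤ → R := fun j => ∑ i ∈ range D.N, (if D.e j i = -1 then D.row τ F (j, i) else 0)
  set L : ℤ → R := fun j => ∑ i ∈ range D.N, D.lv τ F j i
  have h1 : ∀ j : ℤ, ∑ i ∈ range D.N, (if D.e j i ≠ 0 then D.row τ F (j, i) else 0) =
      U j + W j := by
    intro j
    simp only [U, W, ← sum_add_distrib]
    refine sum_congr rfl fun i _ => ?_
    rcases D.e_val j i with h | h | h <;> simp [h]
  have h2 : ∀ j : ℤ, U j + W (j + 1) = L (j + 1) - L j := by
    intro j
    have := D.sum_df τ F j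
    simp only [df, sum_sub_distrib, sum_add_distrib] at this
    exact sub_eq_zero.1 this
  have h3 : W ((z : ℤ) * m) = W 0 := by
    refine sum_congr rfl fun i _ => ?_
    have a := D.e_sh z 0 i
    have b : D.row τ F (0 + (z : ℤ) * m, i) = D.row τ F (0, i) := by
      simp only [row, vI_sh, sg_sh, nxt_sh, oth_sh, hF]; ring
    rw [zero_add] at a b
    rw [a, b]
  have h4 : L ((z : ℤ) * m) - L 0 = c * D.gs τ := by
    simp only [L, gs, ← sum_sub_distrib, mul_sum]
    refine sum_congr rfl fun i _ => ?_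
    have b : D.lv τ F (0 + (z : ℤ) * m) i - D.lv τ F 0 i = c * ((D.e 0 i : R) * τ (D.I (0, i))) := by
      simp only [lv, e_sh, I_sh, hF]; ring
    rwa [zero_add] at b
  have h5 : ∀ n : ℕ, ∑ j ∈ range n, (U j + W j) = L n - L 0 + (W 0 - W n) := by
    intro n
    induction n with
    | zero => simp
    | succ n ih =>
      rw [sum_range_succ, ih]; push_cast
      linear_combination h2 n
  simp only [h1]
  rw [h5]; push_cast
  rw [h3, h4]; ring

theorem gs_tel (τ : ℤ → R) (t : R) (hτ : ∀ n, τ (n + 1) = τ n * t) :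
    (t - 1) * D.gs τ = τ D.lk - τ 0 := by
  have h : ∀ n : ℕ, (t - 1) * ∑ i ∈ range n, (D.e 0 i : R) * τ (D.I (0, i)) =
      τ (D.Pre 0 n) - τ 0 := by
    intro n
    induction n with
    | zero => simp [Pre]
    | succ n ih =>
      rw [sum_range_succ, mul_add, ih]; push_cast
      rw [P_succ]
      rcases D.e_val 0 n with u | u | u
      · simp [I, u, hτ]; ring
      · have := hτ (D.Pre 0 n - 1)
        rw [sub_add_cancel] at this
        simp [I, u, ← sub_eq_add_neg, this]; ring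
      · simp [u]
  have := h D.N
  simpa [gs, lk, Pre] using this

end Pool.Agent.P.MP_8a22ed_gt.Diag
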