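import Pool.Agent.P.MP_8a22ed_gt.Mat

/-! The action of full twists on solutions of the Fox relations. -/

set_option linter.unusedSimpArgs false

namespace Pool.Agent.P.MP_8a22ed_gt.Diag

open Finset

variable {R : Type*} [CommRing R] {M : ℕ} (E : Diag M)

/-- `G` satisfies the Fox relations of layer `j`. -/
def Sol (t : Rˣ) (G : ℤ × ℤ → R) (j : ℤ) : Prop :=
  (∀ i, E.e j i = 1 → E.Op t G (j, i) = 0) ∧ ∀ i, E.e (j + 1) i = -1 → E.Op t G (j + 1, i) = 0

theorem lay_a {t : Rˣ} {G : ℤ × ℤ → R} {j : ℤ} (h : E.Sol t G j) (i : ℤ) (h1 : i ≠ E.k j)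
    (h2 : i ≠ E.k j + 1) (he : E.e j i ≠ 0) : G (j + 1, i) = G (j, i) := by
  have ho := E.off j i h1 h2
  rcases E.e_val j i with u | u | u
  · have := h.1 i u
    simp [Op, nxt, sg, On, lay, u, h1, h2] at this
    exact sub_eq_zero.1 this
  · have := h.2 i (ho.trans u)
    simp [Op, nxt, sg, On, lay, u, ho, h1, h2] at this
    exact (sub_eq_zero.1 this).symm
  · exact absurd u he

theorem lay_b {t : Rˣ} {G : ℤ × ℤ → R} {j : ℤ} (h : E.Sol t G j) (hk : E.kind j = Kind.over)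
    (he : E.e j (E.k j) ≠ 0) : G (j + 1, E.k j + 1) = G (j, E.k j) := by
  obtain ⟨a, b⟩ := E.crs j (Or.inl hk)
  have o1 : 2 * E.k j + 1 - E.k j = E.k j + 1 := by ring
  have o2 : 2 * E.k j + 1 - (E.k j + 1) = E.k j := by ring
  rcases E.e_val j (E.k j) with u | u | u
  · have := h.1 _ u
    simp [Op, nxt, sg, On, lay, oth, u, hk, o1] at this
    exact sub_eq_zero.1 this
  · have := h.2 _ (b.trans u)
    simp [Op, nxt, sg, On, lay, oth, u, b, hk, o2] at this
    exact (sub_eq_zero.1 this).symm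
  · exact absurd u he

theorem lay_c {t : Rˣ} {G : ℤ × ℤ → R} {j : ℤ} (h : E.Sol t G j) (hk : E.kind j = Kind.over)
    (he : E.e j (E.k j + 1) ≠ 0) : G (j + 1, E.k j) = tp t (E.e j (E.k j)) * G (j, E.k j + 1) +
      (1 - tp t (E.e j (E.k j))) * G (j, E.k j) := by
  obtain ⟨a, b⟩ := E.crs j (Or.inl hk)
  have o1 : 2 * E.k j + 1 - E.k j = E.k j + 1 := by ring
  have o2 : 2 * E.k j + 1 - (E.k j + 1) = E.k j := by ring
  rcases E.e_val j (E.k j + 1) with u | u | u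
  · have := h.1 _ u
    simp [Op, nxt, sg, On, lay, oth, u, hk, o2] at this
    linear_combination this
  · have := h.2 _ (a.trans u)
    simp [Op, nxt, sg, On, lay, oth, u, a, b, hk, o1] at this
    have i1 := tp_add t (E.e j (E.k j)) (-E.e j (E.k j))
    rw [add_neg_cancel, tp_zero] at i1
    by_cases h0 : E.e j (E.k j) = 0
    · rw [h0] at this ⊢
      simp at this ⊢
      exact (sub_eq_zero.1 this).symm
    · rw [E.lay_b h hk h0] at this
      linear_combination (G (j + 1, E.k j) - G (j, E.k j)) * i1 - tp t (E.e j (E.k j)) * this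
  · exact absurd u he

theorem down_zero {t : Rˣ} {G : ℤ × ℤ → R} {j : ℤ} (h : E.Sol t G j) (hk : E.kind j = Kind.over)
    (h0 : ∀ i, E.e (j + 1) i ≠ 0 → G (j + 1, i) = 0) (i : ℤ) (he : E.e j i ≠ 0) :
    G (j, i) = 0 := by
  obtain ⟨a, b⟩ := E.crs j (Or.inl hk)
  have hb : E.e j (E.k j) ≠ 0 → G (j, E.k j) = 0 := fun u => by
    rw [← E.lay_b h hk u]; exact h0 _ (by rwa [b])
  by_cases h1 : i = E.k j
  · subst h1; exact hb he
  · by_cases h2 : i = E.k j + 1
    · subst h2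
      have := E.lay_c h hk he
      rw [h0 _ (by rwa [a])] at this
      have h3 : (1 - tp t (E.e j (E.k j))) * G (j, E.k j) = 0 := by
        by_cases u : E.e j (E.k j) = 0
        · simp [u]
        · rw [hb u, mul_zero]
      rw [h3, add_zero] at this
      exact (tp_unit _ _).mul_right_eq_zero.1 this.symm
    · rw [← E.lay_a h i h1 h2 he]; exact h0 _ (by rwa [E.off j i h1 h2])

theorem sweep_aux {t : Rˣ} {G : ℤ × ℤ → R} (j : ℤ) (n : ℕ)
    (h : ∀ a : ℕ, a < n → E.kind (j + a) = Kind.over ∧ E.k (j + a) = a ∧ E.Sol t G (j + a))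
    (a : ℕ) (ha : a ≤ n) :
    (∀ i : ℤ, 0 ≤ i → i < a → E.e (j + a) i = E.e j (i + 1) ∧ (E.e j (i + 1) ≠ 0 →
      G (j + a, i) = tp t (E.e j 0) * G (j, i + 1) + (1 - tp t (E.e j 0)) * G (j, 0))) ∧
    (E.e (j + a) a = E.e j 0 ∧ (E.e j 0 ≠ 0 → G (j + a, a) = G (j, 0))) ∧
    (∀ i : ℤ, a < i → E.e (j + a) i = E.e j i ∧ (E.e j i ≠ 0 → G (j + a, i) = G (j, i))) := by
  induction a with
  | zero => simp; omega
  | succ a ih =>
    obtain ⟨i1, i2, i3⟩ := ih (by omega)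
    obtain ⟨hk, hp, hs⟩ := h a (by omega)
    obtain ⟨c1, c2⟩ := E.crs _ (Or.inl hk)
    have la := E.lay_a hs
    have lb := E.lay_b hs hk
    have lc := E.lay_c hs hk
    have off := E.off (j + a)
    rw [hp] at c1 c2 la lb lc off
    push_cast
    rw [← add_assoc]
    refine ⟨fun i h0 hi => ?_, ⟨c2.trans i2.1, fun u => ?_⟩, fun i hi => ?_⟩
    · by_cases hia : i = a
      · subst hia
        obtain ⟨d1, d2⟩ := i3 (a + 1) (by omega)
        refine ⟨c1.trans d1, fun u => ?_⟩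
        rw [lc (by rwa [d1]), i2.1, d2 u]
        by_cases v : E.e j 0 = 0
        · simp [v]
        · rw [i2.2 v]
      · obtain ⟨d1, d2⟩ := i1 i h0 (by omega)
        refine ⟨(off i hia (by omega)).trans d1, fun u => ?_⟩
        rw [la i hia (by omega) (by rwa [d1]), d2 u]
    · rw [lb (by rwa [i2.1]), i2.2 u]
    · obtain ⟨d1, d2⟩ := i3 i (by omega)
      refine ⟨(off i (by omega) (by omega)).trans d1, fun u => ?_⟩
      rw [la i (by omega) (by omega) (by rwa [d1]), d2 u]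

theorem sweep {t : Rˣ} {G : ℤ × ℤ → R} (j : ℤ) (n : ℕ)
    (h : ∀ a : ℕ, a < n → E.kind (j + a) = Kind.over ∧ E.k (j + a) = a ∧ E.Sol t G (j + a))
    (i : ℤ) (h0 : 0 ≤ i) (hi : i ≤ n) :
    E.e (j + n) i = E.e j ((i + 1) % (n + 1)) ∧ (E.e j ((i + 1) % (n + 1)) ≠ 0 →
      G (j + n, i) = tp t (E.e j 0) * G (j, (i + 1) % (n + 1)) +
        (1 - tp t (E.e j 0)) * G (j, 0)) := by
  obtain ⟨i1, i2, -⟩ := E.sweep_aux j n h n le_rfl
  by_cases hn : i = n
  · subst hn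
    rw [Int.emod_self]
    exact ⟨i2.1, fun u => by rw [i2.2 u]; ring⟩
  · rw [Int.emod_eq_of_lt (by omega) (by omega)]
    exact i1 i h0 (by omega)

theorem sweeps {t : Rˣ} {G : ℤ × ℤ → R} (j : ℤ) (n r : ℕ)
    (h : ∀ a : ℕ, a < r * n → E.kind (j + a) = Kind.over ∧ E.k (j + a) = (a % n : ℕ) ∧
      E.Sol t G (j + a)) : ∃ γ : R, ∀ i : ℤ, 0 ≤ i → i ≤ n →
    E.e (j + r * n) i = E.e j ((i + r) % (n + 1)) ∧ (E.e j ((i + r) % (n + 1)) ≠ 0 →
      G (j + r * n, i) = tp t (∑ b ∈ range r, E.e j ((b : ℤ) % (n + 1))) *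
        G (j, (i + r) % (n + 1)) + γ) := by
  induction r with
  | zero =>
    refine ⟨0, fun i h0 hi => ?_⟩
    simp [Int.emod_eq_of_lt h0 (by omega : i < n + 1)]
  | succ r ih =>
    obtain ⟨γ, hγ⟩ := ih fun a ha => h a (by rw [Nat.succ_mul]; omega)
    have hs := E.sweep (t := t) (G := G) (j + r * n) n fun a ha => by
      have := h (r * n + a) (by rw [Nat.succ_mul]; omega)
      rw [Nat.mul_add_mod_self_right, Nat.mod_eq_of_lt ha] at this
      push_cast at this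
      rwa [← add_assoc] at this
    refine ⟨tp t (E.e (j + r * n) 0) * γ + (1 - tp t (E.e (j + r * n) 0)) * G (j + r * n, 0),
      fun i h0 hi => ?_⟩
    obtain ⟨s1, s2⟩ := hs i h0 hi
    have hp : (0 : ℤ) < n + 1 := by omega
    obtain ⟨d1, d2⟩ := hγ ((i + 1) % (n + 1)) (Int.emod_nonneg _ hp.ne')
      (by have := Int.emod_lt_of_pos (i + 1) hp; omega)
    have z := (hγ 0 le_rfl (by omega)).1
    rw [Int.emod_add_emod, add_assoc i] at d1 d2
    have e1 : j + ((r + 1 : ℕ) : ℤ) * n = j + r * n + n := by push_cast; ring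
    have e2 : i + ((r + 1 : ℕ) : ℤ) = i + (1 + r) := by push_cast; ring
    rw [e1, e2]
    refine ⟨s1.trans d1, fun u => ?_⟩
    rw [s2 (by rwa [d1]), d2 u, sum_range_succ, tp_add, z, zero_add]; ring

theorem sum_mod (f : ℤ → ℤ) (n s : ℕ) : ∑ b ∈ range (s * (n + 1)), f ((b : ℤ) % (n + 1)) =
    s * ∑ i ∈ range (n + 1), f i := by
  induction s with
  | zero => simp
  | succ s ih =>
    rw [Nat.succ_mul, sum_range_add, ih]
    have : ∑ x ∈ range (n + 1), f (((s * (n + 1) + x : ℕ) : ℤ) % (n + 1)) =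
        ∑ i ∈ range (n + 1), f i := by
      refine sum_congr rfl fun x hx => ?_
      have := mem_range.1 hx
      push_cast
      rw [Int.mul_add_emod_self_right, Int.emod_eq_of_lt (by omega) (by omega)]
    rw [this]; push_cast; ring

theorem twists {t : Rˣ} {G : ℤ × ℤ → R} (j : ℤ) (n s : ℕ)
    (h : ∀ a : ℕ, a < s * (n + 1) * n → E.kind (j + a) = Kind.over ∧
      E.k (j + a) = (a % n : ℕ) ∧ E.Sol t G (j + a)) : ∃ γ : R, ∀ i : ℤ, 0 ≤ i → i ≤ n →
    E.e j i ≠ 0 → G (j, i) = tp t (-(s * ∑ b ∈ range (n + 1), E.e j b)) *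
      G (j + (s * (n + 1) * n : ℕ), i) + γ := by
  obtain ⟨γ, hγ⟩ := E.sweeps j n (s * (n + 1)) h
  refine ⟨-(tp t (-(s * ∑ b ∈ range (n + 1), E.e j b)) * γ), fun i h0 hi u => ?_⟩
  have := (hγ i h0 hi).2
  rw [sum_mod, Nat.cast_mul, Nat.cast_succ, Int.add_mul_emod_self_right,
    Int.emod_eq_of_lt h0 (by omega)] at this
  have i1 := tp_add t (-(s * ∑ b ∈ range (n + 1), E.e j b)) (s * ∑ b ∈ range (n + 1), E.e j b)
  rw [neg_add_cancel, tp_zero] at i1
  push_cast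
  rw [this u]
  linear_combination G (j, i) * i1

end Pool.Agent.P.MP_8a22ed_gt.Diag
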